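import Pool.Agent.Lib.MP_23b606_ag.T3.Defs

/-! Fin: the definitions of the final statement. -/

set_option autoImplicit false

open scoped BigOperators

namespace T3

open T1

variable {M : Type} [AddCommGroup M] {K : Type} [Field K] [Algebra ℂ K] {ι : Type} [Fintype ι]

/-- `O` has its centre in the locus where the toric variety of the lattice point sets `B i` and the
complete intersection `{f = 0}` in it are smooth: there is a basis `b` of the lattice `M` with
coordinates `z_x = χ (b x)`, `x ∈ Fin n ⊕ ι`, and there are points `p i ∈ B i` such that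

* all the `z_x` are in `O`, so that `O` has its centre on the chart of the smooth cone which is
  spanned by the coordinate functions `b.coord x` with `z_x` in the maximal ideal of `O`,
* these coordinate functions have their minimum on `B i` at `p i`, so that `χ^(-p i) f i` is a
  local equation of the `i`-th divisor on this chart,
* the Jacobian determinant of these equations in the variables `z_(inr i)` is a unit at `O`. -/
def SmoothAt (n : ℕ) [DecidableEq ι] (f : ι → M →₀ ℂ) (B : ι → Finset M)
    (χ : Multiplicative M →* K) (O : ValuationSubring K) : Prop :=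
  ∃ (b : Module.Basis (Fin n ⊕ ι) ℤ M) (p : ι → M),
    (∀ x, χ (Multiplicative.ofAdd (b x)) ∈ O) ∧ (∀ i, p i ∈ B i) ∧
    (∀ i, ∀ m ∈ B i, ∀ x, O.valuation (χ (Multiplicative.ofAdd (b x))) < 1 →
      0 ≤ b.coord x (m - p i)) ∧
    O.valuation ((Matrix.det (Matrix.of fun i i' : ι =>
        dl χ (f i) (b.coord (Sum.inr i')).toAddMonoidHom)) /
      ∏ i, (χ (Multiplicative.ofAdd (p i)) * χ (Multiplicative.ofAdd (b (Sum.inr i))))) = 1

/-- The Laurent polynomial with support `B` and all coefficients `1`. -/
noncomputable def indB (B : Finset M) : M →₀ ℂ := ∑ m ∈ B, Finsupp.single m 1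

theorem indB_support (B : Finset M) : (indB B).support = B := by
  classical
  ext m
  rw [Finsupp.mem_support_iff, indB, Finsupp.finsetSum_apply]
  simp [Finsupp.single_apply]

/-- No `m`-canonical form `g (dx_1 ∧ ... ∧ dx_n)^m`, `m ≥ 1`, `g ≠ 0`, is regular at all the
valuation rings of `D`. -/
def KodairaNegOn (D : Set (ValuationSubring K)) (n : ℕ) : Prop :=
  ∀ (x : Fin n → K) (m : ℕ) (g : K), (∃ E, jac E x ≠ 0) → 1 ≤ m →
    (∀ O ∈ D, RegularAt O x m g) → g = 0

theorem KodairaNegOn.negOn {D : Set (ValuationSubring K)} {n : ℕ} (h : KodairaNegOn D n) :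
    NegOn D n := by
  intro x m g hx hm hO
  refine h x m g (exists_jac_ne_zero x hx) hm fun O hdiv => ?_
  obtain ⟨a, c, j, ha, hc, hW, hg⟩ := hO O hdiv
  exact ⟨a, c, j, ha, hc, jac_eq_of_W a x j hW, hg⟩

end T3
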