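import Pool.Agent.Lib.MP_23b606_ag.T1.A.Reg
import Pool.Agent.Lib.MP_23b606_ag.T1.A.Fi
import Pool.Agent.Lib.MP_23b606_ag.T1.E.Elim
import Pool.Agent.Lib.MP_23b606_ag.T1.Jac

/-!
# T3: definitions

T3 is the version of T1 for complete intersections of arbitrary members of linear systems given by
finite sets of lattice points (the supports of the `g i`), which satisfy the adjunction inequality
at a set `D` of divisorial valuation rings (the prime divisors of a normal model).
-/

set_option autoImplicit false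

open scoped BigOperators KaehlerDifferential

namespace T3

open T1

variable {M : Type} [AddCommGroup M] {K : Type} [Field K] [Algebra ℂ K] {ι : Type} [Fintype ι]

/-- No pluricanonical form is regular on `D`. -/
def NegOn (D : Set (ValuationSubring K)) (n : ℕ) : Prop :=
  ∀ (x : Fin n → K) (m : ℕ) (g : K), W x ≠ 0 → 1 ≤ m → (∀ O ∈ D, RegAt O x m g) → g = 0

/-- `l` is the linear form on the top exterior power which belongs to the basis `b`. -/
def IsEll {d n : ℕ} (b : Module.Basis (Fin d) ℤ M) (χ : Multiplicative M →* K) (f : ι → M →₀ ℂ)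
    (e : Fin n ⊕ ι ≃ Fin d) (l : ⋀[K]^n Ω[K⁄ℂ] →ₗ[K] K) : Prop :=
  ∀ u : Fin n → Fin d → K,
    l (exteriorPower.ιMulti K n fun i => om b χ (u i)) = dt b χ f e u

/-- The adjunction inequality at `V`: `ν = ∑ n_k` with all the support functions additive on this
sum, and the residue form has value at least `- h(ν) - q`, `q` the number of the `n_k`. -/
def Adj (g : ι → M →₀ ℂ) (χ : Multiplicative M →* K) {n : ℕ} (l : ⋀[K]^n Ω[K⁄ℂ] →ₗ[K] K)
    {O : ValuationSubring K} (V : NVal O) : Prop :=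
  ∃ (α : Type) (_ : Fintype α) (nn : α → M →+ ℤ) (a : Fin n → K),
    (∀ k, nn k ≠ 0) ∧ V.nu χ = ∑ k, nn k ∧
    (∀ i, hm (g i) (V.nu χ) = ∑ k, hm (g i) (nn k)) ∧
    (∀ i, a i ∈ O) ∧ l (W a) ≠ 0 ∧
    V.v (l (W a)) ≤ ∑ i, hm (g i) (V.nu χ) + (Fintype.card α : ℤ)

/-- What is used of the geometric hypotheses. -/
structure GoodK (D : Set (ValuationSubring K)) (f g : ι → M →₀ ℂ) (χ : Multiplicative M →* K)
    (n : ℕ) : Prop where
  ind : LinearIndependent K fun i => dl χ (f i)
  sub : ∀ i, (f i).support ⊆ (g i).support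
  dv : ∀ O ∈ D, IsDiv n O
  adj : ∀ (d : ℕ) (b : Module.Basis (Fin d) ℤ M) (e : Fin n ⊕ ι ≃ Fin d)
    (l : ⋀[K]^n Ω[K⁄ℂ] →ₗ[K] K), IsEll b χ f e l → ∀ O ∈ D, ∀ V : NVal O, Adj g χ l V

/-- Constants belong to divisorial valuation rings. -/
theorem IsDiv.const {n : ℕ} {O : ValuationSubring K} (h : IsDiv n O) (c : ℂ) :
    algebraMap ℂ K c ∈ O := by
  obtain ⟨-, u, hu⟩ := h
  by_cases hc : c = 0
  · rw [hc, map_zero]
    exact O.zero_mem
  · have h1 := hu (MvPolynomial.C c) (by
      intro h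
      exact hc (MvPolynomial.C_injective _ _ (by rw [h, map_zero])))
    rw [MvPolynomial.aeval_C] at h1
    exact (O.valuation_le_one_iff _).mp h1.le

/-- The lattice `{m : n_j(m) = 0 for all j}`. -/
noncomputable def M0 {J : Type} (nn : J → M →+ ℤ) : Submodule ℤ M :=
  ⨅ j, LinearMap.ker (nn j).toIntLinearMap

/-- Its inclusion. -/
noncomputable def rho {J : Type} (nn : J → M →+ ℤ) : M0 nn →+ M := (M0 nn).subtype.toAddMonoidHom

theorem rho_inj {J : Type} (nn : J → M →+ ℤ) : Function.Injective (rho nn) :=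
  Subtype.val_injective

theorem mem_M0 {J : Type} (nn : J → M →+ ℤ) (m : M) : m ∈ M0 nn ↔ ∀ j, nn j m = 0 := by
  rw [M0, Submodule.mem_iInf]
  rfl

end T3
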