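import Pool.Agent.Lib.MP_23b606_ag.T3.Defs

/-! Bas: extension of bases (row T3-4). -/

set_option autoImplicit false

namespace T3

open T1

/-- A basis of a saturated sublattice extends to a basis of the lattice. Proof: `M ⧸ S0` is finite
and torsion free, hence free (`Module.free_of_finite_type_torsion_free'`), of rank
`finrank M - d0`; `S0.mkQ` has a section, `Module.Basis.ofSplitExact`-like lemmas or
`Submodule.exists_isCompl` for projective quotients (`LinearMap.exists_rightInverse...`,
`Submodule.quotientEquivOfIsCompl`), or build the basis by `Module.Basis.mk` from independence and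
spanning. -/
theorem exists_basis_ext {M : Type} [AddCommGroup M] [Module.Free ℤ M] [Module.Finite ℤ M]
    (S0 : Submodule ℤ M) (hS0 : ∀ (k : ℤ) (m : M), k ≠ 0 → k • m ∈ S0 → m ∈ S0) {d0 : ℕ}
    (b0 : Module.Basis (Fin d0) ℤ S0) (S : Type) [Fintype S]
    (hS : d0 + Fintype.card S = Module.finrank ℤ M) :
    ∃ b : Module.Basis (Fin d0 ⊕ S) ℤ M, ∀ k, b (Sum.inl k) = (b0 k : M) := by
  classical
  have htf : Module.IsTorsionFree ℤ (M ⧸ S0) := by
    rw [Module.isTorsionFree_iff_smul_eq_zero]
    intro k x hk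
    induction x using Submodule.Quotient.induction_on with
    | H m =>
      rw [← Submodule.Quotient.mk_smul, Submodule.Quotient.mk_eq_zero] at hk
      by_cases h0 : k = 0
      · exact Or.inl h0
      · right
        rw [Submodule.Quotient.mk_eq_zero]
        exact hS0 k m h0 hk
  have hfree : Module.Free ℤ (M ⧸ S0) := inferInstance
  let bQ0 := Module.finBasis ℤ (M ⧸ S0)
  have hcard : Module.finrank ℤ (M ⧸ S0) = Fintype.card S := by
    have h1 := Module.finrank_eq_card_basis (Module.Basis.sumQuot b0 bQ0)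
    rw [Fintype.card_sum, Fintype.card_fin, Fintype.card_fin] at h1
    omega
  let bQ : Module.Basis S ℤ (M ⧸ S0) :=
    bQ0.reindex ((finCongr hcard).trans (Fintype.equivFin S).symm)
  exact ⟨Module.Basis.sumQuot b0 bQ, fun k => Module.Basis.sumQuot_inl b0 bQ k⟩

/-- `M0 nn` is saturated: `nn j (k m) = k nn j (m)`. -/
theorem M0_sat {M : Type} [AddCommGroup M] {J : Type} (nn : J → M →+ ℤ) (k : ℤ) (m : M)
    (hk : k ≠ 0) (h : k • m ∈ M0 nn) : m ∈ M0 nn := by
  rw [mem_M0] at h ⊢
  intro j
  have h1 := h j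
  rw [map_zsmul, smul_eq_mul] at h1
  rcases mul_eq_zero.1 h1 with h2 | h2
  · exact absurd h2 hk
  · exact h2

/-- A functional which vanishes on the first part of a basis is a combination of the last
coordinates: `n m = ∑_s n (b (inr s)) * b.coord (inr s) m`. -/
theorem comb_of_zero {M : Type} [AddCommGroup M] {d0 : ℕ} {S : Type} [Fintype S]
    (b : Module.Basis (Fin d0 ⊕ S) ℤ M) (n : M →+ ℤ) (h : ∀ k, n (b (Sum.inl k)) = 0) :
    n = ∑ s, n (b (Sum.inr s)) • (b.coord (Sum.inr s)).toAddMonoidHom := by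
  refine AddMonoidHom.ext fun m => ?_
  have h1 := b.sum_repr m
  conv_lhs => rw [← h1]
  rw [map_sum, Fintype.sum_sum_type]
  have h2 : ∑ k : Fin d0, n ((b.repr m) (Sum.inl k) • b (Sum.inl k)) = 0 := by
    refine Finset.sum_eq_zero fun k _ => ?_
    rw [map_zsmul, h k, smul_zero]
  rw [h2, zero_add, AddMonoidHom.finsetSum_apply]
  refine Finset.sum_congr rfl fun s _ => ?_
  rw [map_zsmul]
  change (b.repr m) (Sum.inr s) * n (b (Sum.inr s)) = n (b (Sum.inr s)) * (b.repr m) (Sum.inr s)
  ring

end T3
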