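import Pool.Agent.Lib.MP_23b606_ag.T3.Defs

/-! Blk: the linear forms of the system and of the reduced system (row T3-5). -/

set_option autoImplicit false

open scoped BigOperators KaehlerDifferential

namespace T3

open T1

variable {ι : Type}

/-- The equivalence `Fin n ⊕ ι ≃ Fin d` belonging to `e0 : Fin n ⊕ {i // p i} ≃ Fin d0`. -/
noncomputable def eE (p : ι → Prop) [DecidablePred p] {n d0 d : ℕ}
    (e0 : Fin n ⊕ {i // p i} ≃ Fin d0) (E : Fin d0 ⊕ {i // ¬ p i} ≃ Fin d) :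
    Fin n ⊕ ι ≃ Fin d :=
  (((Equiv.refl (Fin n)).sumCongr (Equiv.sumCompl p).symm).trans
    (Equiv.sumAssoc (Fin n) {i // p i} {i // ¬ p i}).symm).trans
      ((e0.sumCongr (Equiv.refl {i // ¬ p i})).trans E)

/-- The first step of `eE`. -/
def eE1 (p : ι → Prop) [DecidablePred p] (n : ℕ) :
    Fin n ⊕ ι ≃ (Fin n ⊕ {i // p i}) ⊕ {i // ¬ p i} :=
  ((Equiv.refl (Fin n)).sumCongr (Equiv.sumCompl p).symm).trans
    (Equiv.sumAssoc (Fin n) {i // p i} {i // ¬ p i}).symm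

theorem eE_symm (p : ι → Prop) [DecidablePred p] {n d0 d : ℕ}
    (e0 : Fin n ⊕ {i // p i} ≃ Fin d0) (E : Fin d0 ⊕ {i // ¬ p i} ≃ Fin d)
    (y : (Fin n ⊕ {i // p i}) ⊕ {i // ¬ p i}) :
    eE p e0 E ((eE1 p n).symm y) = E (Sum.map e0 id y) := by
  change E ((e0.sumCongr (Equiv.refl {i // ¬ p i})) (eE1 p n ((eE1 p n).symm y))) = _
  rw [Equiv.apply_symm_apply]
  rfl

/-- The coordinates on the sublattice. -/
theorem blk_coord_inl {M M0' Q : Type} [AddCommGroup M] [AddCommGroup M0'] (ρ : M0' →+ M)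
    {d0 : ℕ} (b0 : Module.Basis (Fin d0) ℤ M0') (b : Module.Basis (Fin d0 ⊕ Q) ℤ M)
    (hb : ∀ k, b (Sum.inl k) = ρ (b0 k)) (k : Fin d0) :
    (b.coord (Sum.inl k)).toAddMonoidHom.comp ρ = (b0.coord k).toAddMonoidHom := by
  classical
  have h : (b.coord (Sum.inl k)).comp ρ.toIntLinearMap = b0.coord k := by
    refine b0.ext fun j => ?_
    change b.coord (Sum.inl k) (ρ (b0 j)) = b0.coord k (b0 j)
    rw [← hb, Module.Basis.coord_apply, Module.Basis.coord_apply, Module.Basis.repr_self,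
      Module.Basis.repr_self, Finsupp.single_apply, Finsupp.single_apply]
    by_cases hjk : j = k
    · rw [if_pos hjk, if_pos (congrArg Sum.inl hjk)]
    · rw [if_neg hjk, if_neg fun h => hjk (Sum.inl_injective h)]
  ext m
  exact congrArg (fun L : M0' →ₗ[ℤ] ℤ => L m) h

theorem blk_coord_inr {M M0' Q : Type} [AddCommGroup M] [AddCommGroup M0'] (ρ : M0' →+ M)
    {d0 : ℕ} (b0 : Module.Basis (Fin d0) ℤ M0') (b : Module.Basis (Fin d0 ⊕ Q) ℤ M)
    (hb : ∀ k, b (Sum.inl k) = ρ (b0 k)) (s : Q) :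
    (b.coord (Sum.inr s)).toAddMonoidHom.comp ρ = 0 := by
  classical
  have h : (b.coord (Sum.inr s)).comp ρ.toIntLinearMap = 0 := by
    refine b0.ext fun j => ?_
    change b.coord (Sum.inr s) (ρ (b0 j)) = 0
    rw [← hb, Module.Basis.coord_apply, Module.Basis.repr_self, Finsupp.single_apply,
      if_neg Sum.inl_ne_inr]
  ext m
  exact congrArg (fun L : M0' →ₗ[ℤ] ℤ => L m) h

theorem blk_dl_zero {M : Type} [AddCommGroup M] {K : Type} [Field K] [Algebra ℂ K]
    (χ : Multiplicative M →* K) (f : M →₀ ℂ) : dl χ f 0 = 0 := by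
  rw [dl, Finsupp.sum]
  refine Finset.sum_eq_zero fun m _ => ?_
  rw [AddMonoidHom.zero_apply, Int.cast_zero, mul_zero]

theorem blk_coord_re {M : Type} [AddCommGroup M] {α β : Type} (b : Module.Basis α ℤ M)
    (E : α ≃ β) (s : α) : (b.reindex E).coord (E s) = b.coord s := by
  ext m
  rw [Module.Basis.coord_apply, Module.Basis.coord_apply, Module.Basis.repr_reindex_apply,
    Equiv.symm_apply_apply]

/-- The rows of the shifted equations. -/
theorem blk_dl {M M0' : Type} [AddCommGroup M] [AddCommGroup M0']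
    {K : Type} [Field K] [Algebra ℂ K] (ρ : M0' →+ M) (hρ : Function.Injective ρ)
    (χ : Multiplicative M →* K) (f : M →₀ ℂ) (hz : ev χ f = 0) (a : M)
    (hsh : ∀ m ∈ f.support, ∃ m0, ρ m0 + a = m) (n' : M →+ ℤ) :
    dl χ f n' = χ (Multiplicative.ofAdd a) *
      dl (χ.comp (AddMonoidHom.toMultiplicative ρ)) (sh ρ hρ a f) (n'.comp ρ) := by
  have h1 := sh_ev ρ hρ a f χ hsh
  rw [hz] at h1
  have h2 := (mul_eq_zero.1 h1.symm).resolve_left (om_chi_ne χ a)
  rw [sh_dl ρ hρ a f χ hsh, h2, mul_zero, add_zero]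

/-- The two lifts of a differential. -/
theorem blk_om {M M0' Q : Type} [AddCommGroup M] [AddCommGroup M0'] [Fintype Q]
    {K : Type} [Field K] [Algebra ℂ K] (ρ : M0' →+ M)
    (χ : Multiplicative M →* K)
    {d0 : ℕ} (b0 : Module.Basis (Fin d0) ℤ M0') (b : Module.Basis (Fin d0 ⊕ Q) ℤ M)
    (hb : ∀ k, b (Sum.inl k) = ρ (b0 k)) {d : ℕ} (E : Fin d0 ⊕ Q ≃ Fin d) (u0 : Fin d0 → K) :
    om (b.reindex E) χ (fun y => Sum.elim u0 0 (E.symm y)) =
      om b0 (χ.comp (AddMonoidHom.toMultiplicative ρ)) u0 := by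
  rw [om_apply, om_apply, ← Equiv.sum_comp E, Fintype.sum_sum_type]
  have h1 : ∑ s : Q, (Sum.elim u0 0 (E.symm (E (Sum.inr s))) : K) •
      odlog χ ((b.reindex E) (E (Sum.inr s))) = 0 := by
    refine Finset.sum_eq_zero fun s _ => ?_
    rw [Equiv.symm_apply_apply, Sum.elim_inr, Pi.zero_apply, zero_smul]
  rw [h1, add_zero]
  refine Finset.sum_congr rfl fun k _ => ?_
  rw [Equiv.symm_apply_apply, Sum.elim_inl, Module.Basis.reindex_apply, Equiv.symm_apply_apply, hb]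
  rfl

/-- `l (W x) = ∏ χ(a_i) * det (dl χ (f s) (b.coord s')) * l0 (W x)`.

Proof. `om b0 χ0` is surjective (`om_surjective`, `hgen0`), so `D (x i) = om b0 χ0 (u0 i)` for some
`u0 i : Fin d0 → K`, and `W x = ιMulti (fun i => om b0 χ0 (u0 i))`. With `u i : Fin d → K`,
`u i (E (inl k)) = u0 i k`, `u i (E (inr s)) = 0`, also
`om (b.reindex E) χ (u i) = om b0 χ0 (u0 i)`, because
`odlog χ (b (inl k)) = odlog χ (ρ (b0 k)) = odlog χ0 (b0 k)` (`om_apply`). So
`l (W x) = dt (b.reindex E) χ f (eE p e0 E) u` and `l0 (W x) = dt b0 χ0 f0 e0 u0`. Reindex the first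
determinant by `Fin n ⊕ ι ≃ (Fin n ⊕ {i // p i}) ⊕ {i // ¬ p i}` (the first step of `eE`;
`Matrix.det_reindex_self` / `Matrix.det_submatrix_equiv_self`): its rows are `(u0 i ∘ e0, 0)`,
for `p i`: `(χ(a i) row b0 χ0 (f0 i) ∘ e0, 0)` (by `sh_dl` and `sh_ev`, as
`b.coord (inl k) ∘ ρ = b0.coord k`, `b.coord (inr s) ∘ ρ = 0`, and `ev χ0 (f0 i) = 0`), and for
`¬ p s`: `(*, dl χ (f s) (b.coord (inr s')))`. So it is the determinant of a block matrix
`Matrix.fromBlocks A 0 C B` (`Matrix.det_fromBlocks_zero₁₂`) with `det A = ∏ χ(a i) * dt b0 ..`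
(`Matrix.det_mul_column`, as in T1/A/Min.lean). -/
theorem ell_eq [Fintype ι] {M M0' : Type} [AddCommGroup M] [AddCommGroup M0']
    {K : Type} [Field K] [Algebra ℂ K] (ρ : M0' →+ M) (hρ : Function.Injective ρ)
    (χ : Multiplicative M →* K) (f : ι → M →₀ ℂ) (hz : ∀ i, ev χ (f i) = 0)
    (p : ι → Prop) [DecidablePred p] [DecidableEq {i // ¬ p i}] (a : {i // p i} → M)
    (hsh : ∀ i : {i // p i}, ∀ m ∈ (f i.1).support, ∃ m0, ρ m0 + a i = m)
    {d0 : ℕ} (b0 : Module.Basis (Fin d0) ℤ M0') (b : Module.Basis (Fin d0 ⊕ {i // ¬ p i}) ℤ M)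
    (hb : ∀ k, b (Sum.inl k) = ρ (b0 k)) {n : ℕ} (e0 : Fin n ⊕ {i // p i} ≃ Fin d0)
    (hgen0 : IntermediateField.adjoin ℂ
      (Set.range (χ.comp (AddMonoidHom.toMultiplicative ρ))) = ⊤)
    (l0 : ⋀[K]^n Ω[K⁄ℂ] →ₗ[K] K)
    (hl0 : IsEll b0 (χ.comp (AddMonoidHom.toMultiplicative ρ))
      (fun i : {i // p i} => sh ρ hρ (a i) (f i.1)) e0 l0)
    {d : ℕ} (E : Fin d0 ⊕ {i // ¬ p i} ≃ Fin d) (l : ⋀[K]^n Ω[K⁄ℂ] →ₗ[K] K)
    (hl : IsEll (b.reindex E) χ f (eE p e0 E) l) (x : Fin n → K) :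
    l (W x) = (∏ i, χ (Multiplicative.ofAdd (a i))) *
      Matrix.det (Matrix.of fun s s' : {i // ¬ p i} =>
        dl χ (f s.1) (b.coord (Sum.inr s')).toAddMonoidHom) * l0 (W x) := by
  classical
  obtain ⟨u0, hu0⟩ : ∃ u0 : Fin n → Fin d0 → K, ∀ i,
      om b0 (χ.comp (AddMonoidHom.toMultiplicative ρ)) (u0 i) = KaehlerDifferential.D ℂ K (x i) :=
    ⟨fun i => (om_surjective b0 _ hgen0 (KaehlerDifferential.D ℂ K (x i))).choose,
      fun i => (om_surjective b0 _ hgen0 (KaehlerDifferential.D ℂ K (x i))).choose_spec⟩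
  have hW0 : W x = exteriorPower.ιMulti K n fun i =>
      om b0 (χ.comp (AddMonoidHom.toMultiplicative ρ)) (u0 i) := by
    rw [W]
    congr 1
    funext i
    exact (hu0 i).symm
  have hW1 : W x = exteriorPower.ιMulti K n fun i =>
      om (b.reindex E) χ (fun y => Sum.elim (u0 i) 0 (E.symm y)) := by
    rw [W]
    congr 1
    funext i
    rw [blk_om ρ χ b0 b hb E]
    exact (hu0 i).symm
  have h0 : l0 (W x) = dt b0 (χ.comp (AddMonoidHom.toMultiplicative ρ))
      (fun i : {i // p i} => sh ρ hρ (a i) (f i.1)) e0 u0 := by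
    rw [hW0]
    exact hl0 u0
  have h1 : l (W x) = dt (b.reindex E) χ f (eE p e0 E)
      (fun i y => Sum.elim (u0 i) 0 (E.symm y)) := by
    rw [hW1]
    exact hl _
  rw [h0, h1]
  -- the block matrix
  set R0 : {i // p i} → Fin d0 → K := fun i =>
    row b0 (χ.comp (AddMonoidHom.toMultiplicative ρ)) (sh ρ hρ (a i) (f i.1)) with hR0
  set A : Matrix (Fin n ⊕ {i // p i}) (Fin n ⊕ {i // p i}) K := Matrix.of fun x y =>
    Sum.elim u0 R0 x (e0 y) with hA
  set c : Fin n ⊕ {i // p i} → K :=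
    Sum.elim (fun _ => 1) fun i => χ (Multiplicative.ofAdd (a i)) with hc
  set A' : Matrix (Fin n ⊕ {i // p i}) (Fin n ⊕ {i // p i}) K := Matrix.of fun x y =>
    c x * A x y with hA'
  set C : Matrix {i // ¬ p i} (Fin n ⊕ {i // p i}) K := Matrix.of fun s y =>
    row (b.reindex E) χ (f s.1) (E (Sum.inl (e0 y))) with hC
  set B : Matrix {i // ¬ p i} {i // ¬ p i} K := Matrix.of fun s s' =>
    dl χ (f s.1) (b.coord (Sum.inr s')).toAddMonoidHom with hB
  set Mx : Matrix (Fin n ⊕ ι) (Fin n ⊕ ι) K := Matrix.of fun x y =>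
    Sum.elim (fun i y => Sum.elim (u0 i) 0 (E.symm y)) (fun i => row (b.reindex E) χ (f i)) x
      (eE p e0 E y) with hMx
  have hblk : Mx.submatrix (eE1 p n).symm (eE1 p n).symm = Matrix.fromBlocks A' 0 C B := by
    ext x' y'
    rw [Matrix.submatrix_apply, hMx, Matrix.of_apply, eE_symm]
    rcases x' with (i | i) | s
    · change (Sum.elim (u0 i) 0 (E.symm (E (Sum.map e0 id y'))) : K) = _
      rw [Equiv.symm_apply_apply]
      rcases y' with y | s'
      · rw [Matrix.fromBlocks_apply₁₁]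
        change u0 i (e0 y) = 1 * u0 i (e0 y)
        rw [one_mul]
      · rw [Matrix.fromBlocks_apply₁₂]
        rfl
    · change dl χ (f i.1) ((b.reindex E).coord (E (Sum.map e0 id y'))).toAddMonoidHom = _
      rw [blk_coord_re, blk_dl ρ hρ χ (f i.1) (hz i.1) (a i) (hsh i)]
      rcases y' with y | s'
      · rw [Matrix.fromBlocks_apply₁₁]
        change _ = χ (Multiplicative.ofAdd (a i)) * R0 i (e0 y)
        rw [Sum.map_inl, blk_coord_inl ρ b0 b hb]
        rfl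
      · rw [Matrix.fromBlocks_apply₁₂, Sum.map_inr, blk_coord_inr ρ b0 b hb, blk_dl_zero,
          mul_zero]
        rfl
    · change dl χ (f s.1) ((b.reindex E).coord (E (Sum.map e0 id y'))).toAddMonoidHom = _
      rcases y' with y | s'
      · rw [Matrix.fromBlocks_apply₂₁]
        rfl
      · rw [Matrix.fromBlocks_apply₂₂, blk_coord_re]
        rfl
  have hdetM : Mx.det = A'.det * B.det := by
    rw [← Matrix.det_submatrix_equiv_self (eE1 p n).symm Mx, hblk, Matrix.det_fromBlocks_zero₁₂]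
  have hdetA : A'.det = (∏ i, χ (Multiplicative.ofAdd (a i))) * A.det := by
    rw [hA', Matrix.det_mul_column, hc, Fintype.prod_sum_type]
    simp only [Sum.elim_inl, Sum.elim_inr, Finset.prod_const_one, one_mul]
  have e1 : dt (b.reindex E) χ f (eE p e0 E)
      (fun i y => Sum.elim (u0 i) 0 (E.symm y)) = Mx.det := by
    rw [dt, hMx]
  have e2 : dt b0 (χ.comp (AddMonoidHom.toMultiplicative ρ))
      (fun i : {i // p i} => sh ρ hρ (a i) (f i.1)) e0 u0 = A.det := by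
    rw [dt, hA]
    congr
  rw [e1, e2, hdetM, hdetA]
  ring

end T3
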