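import Pool.Agent.Lib.MP_23b606_ag.T3.Defs

/-! Bnd: the bound for the determinant (row T3-6). -/

set_option autoImplicit false

open scoped BigOperators

namespace T3

open T1

/-- The multilinear expansion: if `D s s' = ∑_{m ∈ A s} c s m * θ s' m` then
`det D = ∑_μ ∏_s c s (μ s) * det (θ s' (μ s))`, the sum over all `μ` with `μ s ∈ A s`
(`Fintype.piFinset`). Proof: `Matrix.det` is multilinear in the rows (`Matrix.detRowAlternating`,
`MultilinearMap.map_sum_finset`, `MultilinearMap.map_smul_univ`), or from `Matrix.det_apply` by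
`Finset.prod_univ_sum`. -/
theorem det_expand {K : Type} [Field K] {M : Type} {S : Type} [Fintype S] [DecidableEq S]
    [DecidableEq M] (A : S → Finset M) (c : S → M → K) (θ : S → S → M → ℤ) :
    Matrix.det (Matrix.of fun s s' : S => ∑ m ∈ A s, c s m * ((θ s s' m : ℤ) : K)) =
      ∑ μ ∈ Fintype.piFinset A, (∏ s, c s (μ s)) *
        (((Matrix.det (Matrix.of fun s s' : S => θ s s' (μ s)) : ℤ) : K)) := by
  have h1 : ∀ σ : Equiv.Perm S, ∏ i, ∑ m ∈ A i, c i m * ((θ i (σ i) m : ℤ) : K) =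
      ∑ μ ∈ Fintype.piFinset A, ∏ i, (c i (μ i) * ((θ i (σ i) (μ i) : ℤ) : K)) := fun σ =>
    Finset.prod_univ_sum _ _
  rw [← Matrix.det_transpose, Matrix.det_apply']
  simp only [Matrix.transpose_apply, Matrix.of_apply, h1, Finset.mul_sum]
  rw [Finset.sum_comm]
  refine Finset.sum_congr rfl fun μ _ => ?_
  rw [← Matrix.det_transpose (Matrix.of fun s s' : S => θ s s' (μ s)), Matrix.det_apply',
    Int.cast_sum, Finset.mul_sum]
  refine Finset.sum_congr rfl fun σ _ => ?_
  simp only [Matrix.transpose_apply, Matrix.of_apply]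
  rw [Finset.prod_mul_distrib, Int.cast_mul, Int.cast_prod]
  push_cast
  ring

private theorem Bnd_v_prod {K : Type} [Field K] {O : ValuationSubring K} (V : NVal O) {α : Type}
    (S : Finset α) (x : α → K) (hx : ∀ i ∈ S, x i ≠ 0) :
    V.v (∏ i ∈ S, x i) = ∑ i ∈ S, V.v (x i) := by
  classical
  induction S using Finset.induction_on with
  | empty => rw [Finset.prod_empty, Finset.sum_empty, V.one]
  | insert a S ha ih =>
    rw [Finset.prod_insert ha, Finset.sum_insert ha, V.mul _ _ (hx a (Finset.mem_insert_self a S))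
      (Finset.prod_ne_zero_iff.2 fun i hi => hx i (Finset.mem_insert_of_mem hi)),
      ih fun i hi => hx i (Finset.mem_insert_of_mem hi)]

private theorem Bnd_v_const {K : Type} [Field K] [Algebra ℂ K] {O : ValuationSubring K}
    (V : NVal O) (hO : ∀ c : ℂ, algebraMap ℂ K c ∈ O) (c : ℂ) (hc : c ≠ 0) :
    V.v (algebraMap ℂ K c) = 0 := by
  have h0 : algebraMap ℂ K c ≠ 0 := by
    rwa [Ne, map_eq_zero]
  have h1 := (V.mem _ h0).1 (hO c)
  have h2 : (algebraMap ℂ K c)⁻¹ ∈ O := by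
    rw [← map_inv₀]
    exact hO _
  have h3 := (V.mem _ (inv_ne_zero h0)).1 h2
  rw [V.inv h0] at h3
  omega

/-- The bound for `Δ = det (dl χ (f s) (θ s'))`:
`∑_s hm (g s) ν + card Z ≤ v(Δ)` if all `nn k`, `k ∈ Z`, are nonzero combinations of the `θ s`.

Proof. Let `p s ∈ supp (g s)` be a minimum of `ν` (`exists_eq_hm`; `g s ≠ 0` since `f s ≠ 0`,
since `Δ ≠ 0`): `ν (p s) = hm (g s) ν = ∑ k, hm (g s) (nn k) ≤ ∑ k, nn k (p s) = ν (p s)`, so
`nn k (p s) = hm (g s) (nn k)` for all `k`, and `nn k (m - p s) ≥ 0` for all `m ∈ supp (f s)`.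
As `ev χ (f s) = 0`, `dl χ (f s) (θ s') = ∑_m c_m χ(m) θ s' (m - p s)`. Expand the determinant by
`det_expand`. A term with nonzero integer determinant has value `∑_s ν (μ s)` (nonzero constants
have value `0`, see `v_int` in T1/A/Reg.lean) `= ∑_s hm (g s) ν + ∑_k ∑_s nn k (μ s - p s)`, and for
`k ∈ Z` `∑_s nn k (μ s - p s) ≥ 1`: otherwise all the `nn k (μ s - p s) = 0`, `s ∈ S`, and
`nn k = ∑ c s' • θ s'` with `c ≠ 0` gives a nonzero vector `c` killed by the integer matrix
`(θ s' (μ s - p s))` (`Matrix.eq_zero_of_mulVec_eq_zero` / `Matrix.exists_mulVec_eq_zero_iff`).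
Conclude by `NVal.sum` with the bound `∑_s hm (g s) ν + card Z - 1`. -/
theorem v_det_ge {M : Type} [AddCommGroup M] {K : Type} [Field K] [Algebra ℂ K]
    {O : ValuationSubring K} (V : NVal O) (hO : ∀ c : ℂ, algebraMap ℂ K c ∈ O)
    (χ : Multiplicative M →* K) {S : Type} [Fintype S] [DecidableEq S] (f g : S → M →₀ ℂ)
    (hz : ∀ s, ev χ (f s) = 0) (hs : ∀ s, (f s).support ⊆ (g s).support) (θ : S → M →+ ℤ)
    {α : Type} [Fintype α] (nn : α → M →+ ℤ) (hν : V.nu χ = ∑ k, nn k)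
    (hadd : ∀ s, hm (g s) (V.nu χ) = ∑ k, hm (g s) (nn k)) (Z : Finset α)
    (hZ0 : ∀ k ∈ Z, nn k ≠ 0) (hZ : ∀ k ∈ Z, ∃ c : S → ℤ, nn k = ∑ s, c s • θ s)
    (hdet : Matrix.det (Matrix.of fun s s' : S => dl χ (f s) (θ s')) ≠ 0) :
    ∑ s, hm (g s) (V.nu χ) + (Z.card : ℤ) ≤
      V.v (Matrix.det (Matrix.of fun s s' : S => dl χ (f s) (θ s'))) := by
  classical
  have hχ0 : ∀ x : Multiplicative M, χ x ≠ 0 := fun x hx => by
    have h : χ (x * x⁻¹) = 0 := by rw [map_mul, hx, zero_mul]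
    rw [mul_inv_cancel, map_one] at h
    exact one_ne_zero h
  have hf0 : ∀ s, f s ≠ 0 := by
    intro s hs0
    apply hdet
    refine Matrix.det_eq_zero_of_row_eq_zero s fun s' => ?_
    rw [Matrix.of_apply, hs0]
    unfold dl
    exact Finsupp.sum_zero_index
  have hg0 : ∀ s, g s ≠ 0 := by
    intro s h
    obtain ⟨m, hm'⟩ := Finsupp.support_nonempty_iff.2 (hf0 s)
    have h1 := hs s hm'
    rw [h] at h1
    simp at h1
  choose p hp1 hp2 using fun s => exists_eq_hm (g s) (hg0 s) (V.nu χ)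
  have hνm : ∀ m : M, V.nu χ m = ∑ k, nn k m := fun m => by
    rw [hν]
    simp
  have hk : ∀ s k, nn k (p s) = hm (g s) (nn k) := by
    intro s
    have h1 : ∑ k, (nn k (p s) - hm (g s) (nn k)) = 0 := by
      rw [Finset.sum_sub_distrib, ← hadd s, ← hνm, hp2 s, sub_self]
    have h2 := (Finset.sum_eq_zero_iff_of_nonneg (fun k _ =>
      sub_nonneg.2 (hm_le (g s) (nn k) (hp1 s)))).1 h1
    intro k
    exact sub_eq_zero.1 (h2 k (Finset.mem_univ k))
  have hge : ∀ s k, ∀ m ∈ (f s).support, 0 ≤ nn k (m - p s) := by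
    intro s k m hm'
    rw [map_sub, hk s k]
    exact sub_nonneg.2 (hm_le (g s) (nn k) (hs s hm'))
  set c : S → M → K := fun s m => algebraMap ℂ K (f s m) * χ (Multiplicative.ofAdd m) with hc
  have hev : ∀ s, ∑ m ∈ (f s).support, c s m = 0 := fun s => hz s
  have hmat : (Matrix.of fun s s' : S => dl χ (f s) (θ s')) = Matrix.of fun s s' : S =>
      ∑ m ∈ (f s).support, c s m * (((fun (s s' : S) (m : M) => θ s' (m - p s)) s s' m : ℤ) : K) := by
    ext s s'
    rw [Matrix.of_apply, Matrix.of_apply]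
    have h1 : dl χ (f s) (θ s') = ∑ m ∈ (f s).support, c s m * ((θ s' m : ℤ) : K) := rfl
    have h2 : ∀ m ∈ (f s).support, c s m * ((θ s' m : ℤ) : K) =
        c s m * ((θ s' (m - p s) : ℤ) : K) + c s m * ((θ s' (p s) : ℤ) : K) := by
      intro m _
      rw [map_sub]
      push_cast
      ring
    rw [h1, Finset.sum_congr rfl h2, Finset.sum_add_distrib, ← Finset.sum_mul, hev s, zero_mul,
      add_zero]
  rw [hmat, det_expand] at hdet ⊢
  have hcv : ∀ s, ∀ m ∈ (f s).support, c s m ≠ 0 ∧ V.v (c s m) = V.nu χ m := by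
    intro s m hm'
    have h1 : f s m ≠ 0 := Finsupp.mem_support_iff.1 hm'
    have h2 : algebraMap ℂ K (f s m) ≠ 0 := by
      rwa [Ne, map_eq_zero]
    refine ⟨mul_ne_zero h2 (hχ0 _), ?_⟩
    rw [hc]
    change V.v (algebraMap ℂ K (f s m) * χ (Multiplicative.ofAdd m)) = _
    rw [V.mul _ _ h2 (hχ0 _), Bnd_v_const V hO _ h1, zero_add]
    rfl
  have hterm := V.sum (Fintype.piFinset fun s => (f s).support) (fun μ => (∏ s, c s (μ s)) *
    (((Matrix.det (Matrix.of fun s s' : S => (fun (s s' : S) (m : M) => θ s' (m - p s)) s s' (μ s)) :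
      ℤ) : K))) (∑ s, hm (g s) (V.nu χ) + (Z.card : ℤ) - 1) (by
    intro μ hμ
    rw [Fintype.mem_piFinset] at hμ
    by_cases hD : Matrix.det (Matrix.of fun s s' : S => θ s' (μ s - p s)) = 0
    · left
      change (∏ s, c s (μ s)) *
        ((Matrix.det (Matrix.of fun s s' : S => θ s' (μ s - p s)) : ℤ) : K) = 0
      rw [hD, Int.cast_zero, mul_zero]
    · right
      change _ < V.v ((∏ s, c s (μ s)) *
        ((Matrix.det (Matrix.of fun s s' : S => θ s' (μ s - p s)) : ℤ) : K))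
      have hDc : (algebraMap ℂ K) ((Matrix.det (Matrix.of fun s s' : S => θ s' (μ s - p s)) : ℤ) : ℂ)
          = ((Matrix.det (Matrix.of fun s s' : S => θ s' (μ s - p s)) : ℤ) : K) := map_intCast _ _
      have hD' : ((Matrix.det (Matrix.of fun s s' : S => θ s' (μ s - p s)) : ℤ) : ℂ) ≠ 0 := by
        exact_mod_cast hD
      have hD0 : (algebraMap ℂ K)
          ((Matrix.det (Matrix.of fun s s' : S => θ s' (μ s - p s)) : ℤ) : ℂ) ≠ 0 := by
        rwa [Ne, map_eq_zero]
      rw [← hDc, V.mul _ _ (Finset.prod_ne_zero_iff.2 fun s _ => (hcv s _ (hμ s)).1) hD0,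
        Bnd_v_const V hO _ hD', add_zero, Bnd_v_prod V _ _ fun s _ => (hcv s _ (hμ s)).1,
        Finset.sum_congr rfl fun s _ => (hcv s _ (hμ s)).2]
      have h1 : ∀ s, V.nu χ (μ s) = hm (g s) (V.nu χ) + ∑ k, nn k (μ s - p s) := by
        intro s
        rw [← hνm, map_sub, hp2 s]
        ring
      rw [Finset.sum_congr rfl fun s _ => h1 s, Finset.sum_add_distrib, Finset.sum_comm]
      have h2 : ∀ k, 0 ≤ ∑ s, nn k (μ s - p s) := fun k =>
        Finset.sum_nonneg fun s _ => hge s k _ (hμ s)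
      have h3 : ∀ k ∈ Z, (1 : ℤ) ≤ ∑ s, nn k (μ s - p s) := by
        intro k hkZ
        by_contra hcon
        have h4 : ∑ s, nn k (μ s - p s) = 0 := le_antisymm (by omega) (h2 k)
        have h5 := (Finset.sum_eq_zero_iff_of_nonneg (fun s _ => hge s k _ (hμ s))).1 h4
        obtain ⟨a, ha⟩ := hZ k hkZ
        have h6 : (Matrix.of fun s s' : S => θ s' (μ s - p s)).mulVec a = 0 := by
          funext s
          have h7 := h5 s (Finset.mem_univ s)
          rw [ha] at h7
          rw [Matrix.mulVec, Pi.zero_apply, ← h7]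
          simp only [dotProduct, Matrix.of_apply, AddMonoidHom.finsetSum_apply,
            AddMonoidHom.coe_smul, Pi.smul_apply, smul_eq_mul]
          exact Finset.sum_congr rfl fun s' _ => mul_comm _ _
        have h8 := Matrix.eq_zero_of_mulVec_eq_zero hD h6
        apply hZ0 k hkZ
        rw [ha, h8]
        simp
      have h4 : (Z.card : ℤ) ≤ ∑ k, ∑ s, nn k (μ s - p s) := by
        calc (Z.card : ℤ) = ∑ k ∈ Z, (1 : ℤ) := by simp
          _ ≤ ∑ k ∈ Z, ∑ s, nn k (μ s - p s) := Finset.sum_le_sum h3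
          _ ≤ ∑ k, ∑ s, nn k (μ s - p s) :=
            Finset.sum_le_sum_of_subset_of_nonneg (Finset.subset_univ Z) fun k _ _ => h2 k
      linarith)
  rcases hterm with h | h
  · exact absurd h hdet
  · exact Int.le_of_sub_one_lt h

end T3
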