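import Pool.Agent.Lib.MP_23b606_ag.T3.Defs
import Pool.Agent.Lib.MP_23b606_ag.T1.S.Sys

/-! Cmp: comparison of the supports of `f i` and `g i` (rows T3-1). -/

set_option autoImplicit false

open scoped BigOperators

namespace T3

open T1

variable {M : Type} [AddCommGroup M] {ι : Type} [Fintype ι] {f g : ι → M →₀ ℂ}
  {J : Type} [Fintype J] {nn : J → M →+ ℤ} {lam : J → ℕ}

/-- Proof: the minimum over a smaller nonempty set is at least the minimum (`hm`, `Finset.inf'_mono`
or `hm_le` with `exists_eq_hm`). -/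
theorem hm_mono {f g : M →₀ ℂ} (hf : f ≠ 0) (h : f.support ⊆ g.support) (n : M →+ ℤ) :
    hm g n ≤ hm f n := by
  obtain ⟨m, hm', he⟩ := exists_eq_hm f hf n
  rw [← he]
  exact hm_le g n (h hm')

/-- Proof: all fields except `idx` are the same; `idx` by `hm_mono`. -/
theorem circ_mono (hf : ∀ i, f i ≠ 0) (hs : ∀ i, (f i).support ⊆ (g i).support)
    (hC : Circ g nn lam) : Circ f nn lam := by
  refine ⟨hC.ne, hC.pos, hC.rel, hC.prim, hC.idx.trans (Finset.sum_le_sum fun j _ => ?_)⟩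
  exact mul_le_mul_of_nonneg_left (add_le_add_right
    (Finset.sum_le_sum fun i _ => hm_mono (hf i) (hs i) (nn j)) 1) (Int.natCast_nonneg _)

/-- Proof: `dd (f i) ≤ dd (g i)` for all `i` by `dd_eq` and `hm_mono`; `idx_le hC` says
`1 + ∑ dd (g i) ≤ ∑ lam j`, so with `hsum` `∑ dd (g i) ≤ ∑ dd (f i)` and there is equality for
every `i` (`Finset.sum_eq_sum_iff_of_le`). -/
theorem dd_eq_dd (hf : ∀ i, f i ≠ 0) (hs : ∀ i, (f i).support ⊆ (g i).support)
    (hC : Circ g nn lam) (hsum : ∑ j, lam j ≤ 1 + ∑ i, dd (f i) nn lam) (i : ι) :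
    dd (g i) nn lam = dd (f i) nn lam := by
  have h1 : ∀ i ∈ Finset.univ, dd (f i) nn lam ≤ dd (g i) nn lam := by
    intro i _
    have h2 : (dd (f i) nn lam : ℤ) ≤ (dd (g i) nn lam : ℤ) := by
      rw [dd_eq (f i) nn lam hC.rel, dd_eq (g i) nn lam hC.rel]
      refine neg_le_neg (Finset.sum_le_sum fun j _ => ?_)
      exact mul_le_mul_of_nonneg_left (hm_mono (hf i) (hs i) (nn j)) (Int.natCast_nonneg _)
    exact_mod_cast h2
  have h3 := idx_le hC
  have h4 := Finset.sum_le_sum h1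
  exact ((Finset.sum_eq_sum_iff_of_le h1).1 (by omega) i (Finset.mem_univ i)).symm

/-- Proof: `dd (g i) = 0`, so by `dd_eq_zero_iff` all the `nn j` are constant on the support of
`g i`. -/
theorem const_of_dd (hs : ∀ i, (f i).support ⊆ (g i).support) (hC : Circ f nn lam) (i : ι)
    (h : dd (g i) nn lam = 0) {a m : M} (ha : a ∈ (g i).support) (hm' : m ∈ (g i).support) :
    m - a ∈ M0 nn := by
  have h1 := (dd_eq_zero_iff (g i) nn lam hC.pos hC.rel).1 h
  rw [mem_M0]
  intro j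
  rw [map_sub, h1 m hm' j, h1 a ha j, sub_self]

end T3
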