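import Pool.Agent.Lib.MP_23b606_ag.T3.SmAdj
import Pool.Agent.Lib.MP_23b606_ag.T3.Bas

/-! SchSm: schoen varieties satisfy `SmoothAt` at all divisorial valuation rings (row T3-11). -/

set_option autoImplicit false

open scoped BigOperators KaehlerDifferential

namespace T3

open T1

/-- A nonzero homomorphism to `ℤ` is `a` times a coordinate function of a basis, `a > 0`.
Proof: the kernel is saturated, of rank `finrank M - 1` (`el_rank_nullity` of T1/E/Elim1.lean; the
range is a nonzero submodule of `ℤ`), extend a basis of it by `exists_basis_ext` with `S = Unit`,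
change the sign of the last basis vector if necessary (`Module.Basis.unitsSMul`) and reindex. -/
theorem exists_basis_coord {M : Type} [AddCommGroup M] [Module.Free ℤ M] [Module.Finite ℤ M]
    (ν : M →+ ℤ) (hν : ν ≠ 0) {d : ℕ} (hd : Module.finrank ℤ M = d) :
    ∃ (b : Module.Basis (Fin d) ℤ M) (x0 : Fin d) (a : ℤ), 0 < a ∧
      ν = a • (b.coord x0).toAddMonoidHom := by
  classical
  set φ : M →ₗ[ℤ] ℤ := ν.toIntLinearMap with hφ
  have hφ0 : φ ≠ 0 := by
    intro h
    apply hν
    ext m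
    exact LinearMap.congr_fun h m
  have h1 := el_rank_nullity φ
  have hr1 : Module.finrank ℤ (LinearMap.range φ) ≤ 1 := by
    have := Submodule.finrank_le (LinearMap.range φ)
    rwa [Module.finrank_self] at this
  have hr2 : 0 < Module.finrank ℤ (LinearMap.range φ) := by
    have hnt : Nontrivial (LinearMap.range φ) := by
      rw [Submodule.nontrivial_iff_ne_bot]
      intro h
      exact hφ0 (LinearMap.range_eq_bot.1 h)
    exact Module.finrank_pos
  have hsat : ∀ (k : ℤ) (m : M), k ≠ 0 → k • m ∈ LinearMap.ker φ → m ∈ LinearMap.ker φ := by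
    intro k m hk h
    rw [LinearMap.mem_ker, map_smul, smul_eq_mul] at h
    rw [LinearMap.mem_ker]
    exact (mul_eq_zero.1 h).resolve_left hk
  obtain ⟨b, hb⟩ := exists_basis_ext (LinearMap.ker φ) hsat
    (Module.finBasis ℤ (LinearMap.ker φ)) Unit (by rw [Fintype.card_unit]; omega)
  have hker : ∀ k, ν (b (Sum.inl k)) = 0 := by
    intro k
    rw [hb k]
    exact LinearMap.mem_ker.1 (Module.finBasis ℤ (LinearMap.ker φ) k).2
  have hcomb := comb_of_zero b ν hker
  have ha0 : ν (b (Sum.inr ())) ≠ 0 := by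
    intro h
    apply hν
    rw [hcomb, Finset.univ_unique, Finset.sum_singleton]
    have h2 : (default : Unit) = () := rfl
    rw [h2, h, zero_smul]
  -- the sign
  obtain ⟨b', a, ha, hb'⟩ : ∃ (b' : Module.Basis (Fin (Module.finrank ℤ (LinearMap.ker φ)) ⊕ Unit)
      ℤ M) (a : ℤ), 0 < a ∧ ν = a • (b'.coord (Sum.inr ())).toAddMonoidHom := by
    rcases lt_or_gt_of_ne ha0 with h | h
    · refine ⟨b.unitsSMul fun _ => -1, -ν (b (Sum.inr ())), by omega, ?_⟩
      have h3 := comb_of_zero (b.unitsSMul fun _ => -1) ν (by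
        intro k
        rw [Module.Basis.unitsSMul_apply]
        have h4 : ((-1 : ℤˣ) • b (Sum.inl k)) = -b (Sum.inl k) := by
          rw [Units.smul_def]
          simp
        rw [h4, map_neg, hker k, neg_zero])
      rw [Finset.univ_unique, Finset.sum_singleton] at h3
      have h5 : (b.unitsSMul fun _ => -1) (Sum.inr (default : Unit)) = -b (Sum.inr ()) := by
        rw [Module.Basis.unitsSMul_apply, Units.smul_def]
        simp
      rw [h5, map_neg] at h3
      exact h3
    · refine ⟨b, ν (b (Sum.inr ())), h, ?_⟩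
      rw [Finset.univ_unique, Finset.sum_singleton] at hcomb
      exact hcomb
  have hcard : Fintype.card (Fin (Module.finrank ℤ (LinearMap.ker φ)) ⊕ Unit) =
      Fintype.card (Fin d) := by
    rw [Fintype.card_sum, Fintype.card_fin, Fintype.card_fin, Fintype.card_unit]
    omega
  set τ := Fintype.equivOfCardEq hcard with hτ
  refine ⟨b'.reindex τ, τ (Sum.inr ()), a, ha, ?_⟩
  rw [hb']
  congr 1
  ext m
  change b'.repr m (Sum.inr ()) = (b'.reindex τ).repr m (τ (Sum.inr ()))
  rw [Module.Basis.repr_reindex_apply, Equiv.symm_apply_apply]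

/-- The value of a nonzero constant. -/
theorem schSm_const {K : Type} [Field K] [Algebra ℂ K] {O : ValuationSubring K}
    (hC : ∀ c : ℂ, algebraMap ℂ K c ∈ O) (V : NVal O) {c : ℂ} (hc : c ≠ 0) :
    algebraMap ℂ K c ≠ 0 ∧ V.v (algebraMap ℂ K c) = 0 := by
  have h0 : algebraMap ℂ K c ≠ 0 := by
    rw [Ne, map_eq_zero]
    exact hc
  refine ⟨h0, ?_⟩
  have h1 := (V.mem _ h0).1 (hC c)
  have h2 : (algebraMap ℂ K c)⁻¹ ∈ O := by
    rw [← map_inv₀]
    exact hC _
  rw [V.mem _ (inv_ne_zero h0), V.inv h0] at h2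
  omega

/-- The value of a nonzero integer. -/
theorem schSm_int {K : Type} [Field K] [Algebra ℂ K] {O : ValuationSubring K}
    (hC : ∀ c : ℂ, algebraMap ℂ K c ∈ O) (V : NVal O) {z : ℤ} (hz : z ≠ 0) :
    ((z : ℤ) : K) ≠ 0 ∧ V.v ((z : ℤ) : K) = 0 := by
  have h1 := schSm_const hC V (c := (z : ℂ)) (Int.cast_ne_zero.2 hz)
  rwa [map_intCast] at h1

/-- The value of a term. -/
theorem schSm_term {M : Type} [AddCommGroup M] {K : Type} [Field K] [Algebra ℂ K]
    {O : ValuationSubring K} (χ : Multiplicative M →* K)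
    (hC : ∀ c : ℂ, algebraMap ℂ K c ∈ O) (V : NVal O) {c : ℂ} (hc : c ≠ 0) (m : M) (z : ℤ) :
    algebraMap ℂ K c * χ (Multiplicative.ofAdd m) * ((z : ℤ) : K) = 0 ∨
      V.v (algebraMap ℂ K c * χ (Multiplicative.ofAdd m) * ((z : ℤ) : K)) = V.nu χ m := by
  by_cases hz : z = 0
  · left
    rw [hz, Int.cast_zero, mul_zero]
  · right
    obtain ⟨h1, h2⟩ := schSm_const hC V hc
    obtain ⟨h3, h4⟩ := schSm_int hC V hz
    have h5 := om_chi_ne χ m
    rw [V.mul _ _ (mul_ne_zero h1 h5) h3, V.mul _ _ h1 h5, h2, h4]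
    change 0 + V.v (χ (Multiplicative.ofAdd m)) + 0 = V.v (χ (Multiplicative.ofAdd m))
    ring

/-- An entry of a minor. -/
theorem schSm_entry {M : Type} [AddCommGroup M] {K : Type} [Field K] [Algebra ℂ K]
    {O : ValuationSubring K} (χ : Multiplicative M →* K)
    (hC : ∀ c : ℂ, algebraMap ℂ K c ∈ O) (V : NVal O) (g : M →₀ ℂ) (n' : M →+ ℤ) :
    dl χ g n' = 0 ∨ hm g (V.nu χ) - 1 < V.v (dl χ g n') := by
  unfold dl Finsupp.sum
  refine V.sum _ _ _ fun m hm' => ?_
  rcases schSm_term χ hC V (Finsupp.mem_support_iff.1 hm') m (n' m) with h | h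
  · exact Or.inl h
  · right
    rw [h]
    have := hm_le g (V.nu χ) hm'
    omega

/-- An entry of a minor in the direction of `ν`. -/
theorem schSm_entry0 {M : Type} [AddCommGroup M] {K : Type} [Field K] [Algebra ℂ K]
    {O : ValuationSubring K} (χ : Multiplicative M →* K)
    (hC : ∀ c : ℂ, algebraMap ℂ K c ∈ O) (V : NVal O) (g : M →₀ ℂ) (hg : ev χ g = 0)
    (n' : M →+ ℤ) {a : ℤ} (ha : 0 < a) (hn : V.nu χ = a • n') :
    dl χ g n' = 0 ∨ hm g (V.nu χ) < V.v (dl χ g n') := by
  have h1 : ((a : ℤ) : K) * dl χ g n' = ∑ m ∈ g.support, algebraMap ℂ K (g m) *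
      χ (Multiplicative.ofAdd m) * ((V.nu χ m - hm g (V.nu χ) : ℤ) : K) := by
    have h2 : ∑ m ∈ g.support, algebraMap ℂ K (g m) * χ (Multiplicative.ofAdd m) = 0 := hg
    have h3 : ∑ m ∈ g.support, algebraMap ℂ K (g m) *
      χ (Multiplicative.ofAdd m) * ((V.nu χ m - hm g (V.nu χ) : ℤ) : K) =
        ((a : ℤ) : K) * dl χ g n' - (∑ m ∈ g.support, algebraMap ℂ K (g m) *
          χ (Multiplicative.ofAdd m)) * ((hm g (V.nu χ) : ℤ) : K) := by
      unfold dl Finsupp.sum
      rw [Finset.mul_sum, Finset.sum_mul, ← Finset.sum_sub_distrib]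
      refine Finset.sum_congr rfl fun m _ => ?_
      have h4 : V.nu χ m = a * n' m := by
        rw [hn]
        rfl
      rw [Int.cast_sub, h4, Int.cast_mul]
      ring
    rw [h3, h2, zero_mul, sub_zero]
  obtain ⟨ha0, hav⟩ := schSm_int (K := K) hC V ha.ne'
  have h5 : ((a : ℤ) : K) * dl χ g n' = 0 ∨ hm g (V.nu χ) < V.v (((a : ℤ) : K) * dl χ g n') := by
    rw [h1]
    refine V.sum _ _ _ fun m hm' => ?_
    by_cases h6 : V.nu χ m = hm g (V.nu χ)
    · left
      rw [h6, sub_self, Int.cast_zero, mul_zero]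
    · rcases schSm_term χ hC V (Finsupp.mem_support_iff.1 hm') m (V.nu χ m - hm g (V.nu χ))
        with h | h
      · exact Or.inl h
      · right
        rw [h]
        have := hm_le g (V.nu χ) hm'
        omega
  by_cases h7 : dl χ g n' = 0
  · exact Or.inl h7
  · right
    rcases h5 with h | h
    · exact absurd h (mul_ne_zero ha0 h7)
    · rwa [V.mul _ _ ha0 h7, hav, zero_add] at h

/-- A determinant whose entries have large values, with a column of larger values. -/
theorem schSm_det {K : Type} [Field K] {O : ValuationSubring K} (V : NVal O) {ι : Type}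
    [Fintype ι] [DecidableEq ι] (A : Matrix ι ι K) (h : ι → ℤ) (i0 : ι)
    (hA : ∀ i j, A i j = 0 ∨ h i - 1 < V.v (A i j))
    (hA0 : ∀ i, A i i0 = 0 ∨ h i < V.v (A i i0)) :
    A.det = 0 ∨ ∑ i, h i < V.v A.det := by
  rw [Matrix.det_apply']
  refine V.sum _ _ _ fun τ _ => ?_
  by_cases hz : ∏ j, A (τ j) j = 0
  · left
    rw [hz, mul_zero]
  · right
    have hne : ∀ j, A (τ j) j ≠ 0 := fun j => (Finset.prod_ne_zero_iff.1 hz) j (Finset.mem_univ j)
    have hsg : ((((Equiv.Perm.sign τ : ℤˣ) : ℤ) : K)) ≠ 0 ∧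
        V.v ((((Equiv.Perm.sign τ : ℤˣ) : ℤ) : K)) = 0 := by
      apply smAdj_sign V
      rcases Int.units_eq_one_or (Equiv.Perm.sign τ) with h1 | h1
      · left
        rw [h1]
        simp
      · right
        rw [h1]
        simp
    rw [V.mul _ _ hsg.1 hz, hsg.2, zero_add, smAdj_prod V _ _ fun j _ => hne j]
    have h1 : ∑ i, h i = ∑ j, h (τ j) := (Equiv.sum_comp τ h).symm
    rw [h1]
    refine Finset.sum_lt_sum (fun j _ => ?_) ⟨i0, Finset.mem_univ _, ?_⟩
    · have h2 := (hA (τ j) j).resolve_left (hne j)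
      omega
    · exact (hA0 (τ i0)).resolve_left (hne i0)

/-- An injective map from `Fin n` extends to an equivalence. -/
theorem schSm_ext {n d : ℕ} {ι : Type} [Fintype ι] (hd : n + Fintype.card ι = d)
    (s : Fin n → Fin d) (hs : Function.Injective s) :
    ∃ σ : Fin n ⊕ ι ≃ Fin d, ∀ k, σ (Sum.inl k) = s k := by
  classical
  have h1 : Fintype.card ((Set.range s)ᶜ : Set (Fin d)) = Fintype.card ι := by
    rw [Fintype.card_compl_set, Fintype.card_fin, Set.card_range_of_injective hs,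
      Fintype.card_fin]
    omega
  let τ : ι ≃ ((Set.range s)ᶜ : Set (Fin d)) := Fintype.equivOfCardEq h1.symm
  refine ⟨(Equiv.sumCongr (Equiv.ofInjective s hs) τ).trans (Equiv.Set.sumCompl (Set.range s)),
    fun k => ?_⟩
  simp

/-- The columns of a nonzero minor are different. -/
theorem schSm_inj {M : Type} [AddCommGroup M] {K : Type} [Field K] [Algebra ℂ K] {ι : Type}
    [Fintype ι] {f : ι → M →₀ ℂ} {d n : ℕ} (b : Module.Basis (Fin d) ℤ M)
    (χ : Multiplicative M →* K) (e : Fin n ⊕ ι ≃ Fin d) (s : Fin n → Fin d)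
    (hs : dt b χ f e (fun i => Pi.single (s i) 1) ≠ 0) : Function.Injective s := by
  classical
  intro i j hij
  by_contra hne
  apply hs
  rw [dt]
  refine Matrix.det_zero_of_row_eq (i := Sum.inl i) (j := Sum.inl j)
    (fun h => hne (Sum.inl.inj h)) ?_
  funext y
  simp only [Matrix.of_apply, Sum.elim_inl, hij]

/-- The proof of `Good.smoothAt` for a basis adapted to the valuation. -/
theorem schSm_aux {M : Type} [AddCommGroup M] [Module.Free ℤ M] [Module.Finite ℤ M]
    {K : Type} [Field K] [Algebra ℂ K] {ι : Type} [Fintype ι] [DecidableEq ι] {f : ι → M →₀ ℂ}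
    {χ : Multiplicative M →* K} {n : ℕ} (hG : Good f χ) (hχ : Pt f χ n)
    {O : ValuationSubring K} (hC : ∀ c : ℂ, algebraMap ℂ K c ∈ O) (V : NVal O)
    (b : Module.Basis (Fin (Module.finrank ℤ M)) ℤ M)
    (hb : V.nu χ = 0 ∨ ∃ (x0 : Fin (Module.finrank ℤ M)) (a : ℤ), 0 < a ∧
      V.nu χ = a • (b.coord x0).toAddMonoidHom) :
    SmoothAt n f (fun i => (f i).support) χ O := by
  classical
  have hcard : Fintype.card (Fin n ⊕ ι) = Fintype.card (Fin (Module.finrank ℤ M)) := by
    rw [Fintype.card_sum, Fintype.card_fin, Fintype.card_fin, hχ.dim]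
  set e : Fin n ⊕ ι ≃ Fin (Module.finrank ℤ M) := Fintype.equivOfCardEq hcard with he
  obtain ⟨l, -, hl⟩ := exists_ell b χ hG.ind hχ e
  obtain ⟨s, hs0, hsv⟩ := exists_minor b χ e O V hC (hG.vind O V hC)
  have hsinj : Function.Injective s := schSm_inj b χ e s hs0
  obtain ⟨σ, hσ⟩ := schSm_ext hχ.dim s hsinj
  set b1 : Module.Basis (Fin n ⊕ ι) ℤ M := b.reindex σ.symm with hb1
  have hb1x : ∀ x, b1 x = b (σ x) := fun x => by
    rw [hb1, Module.Basis.reindex_apply, Equiv.symm_symm]
  have hb1c : ∀ x, (b1.coord x).toAddMonoidHom = (b.coord (σ x)).toAddMonoidHom := fun x => by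
    ext m
    change b1.repr m x = b.repr m (σ x)
    rw [hb1, Module.Basis.repr_reindex_apply, Equiv.symm_symm]
  obtain ⟨sg, hsg, hlW⟩ := ell_basis b χ f e l hl b1
  obtain ⟨hsg0, hsgv⟩ := smAdj_sign V hsg
  set D := Matrix.det (Matrix.of fun i i' : ι =>
    dl χ (f i) (b1.coord (Sum.inr i')).toAddMonoidHom) with hD
  -- the two values of `l`
  have hWx : l (W fun k => χ (Multiplicative.ofAdd (b1 (Sum.inl k)))) =
      (∏ k, χ (Multiplicative.ofAdd (b1 (Sum.inl k)))) *
        dt b χ f e (fun i => Pi.single (s i) 1) := by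
    have h1 : (fun k : Fin n => χ (Multiplicative.ofAdd (b1 (Sum.inl k)))) =
        fun k => χ (Multiplicative.ofAdd (b (s k))) := by
      funext k
      rw [hb1x, hσ]
    rw [h1, ← hl, ← smul_eq_mul, ← map_smul]
    congr 1
    unfold W
    have h2 : (fun i => KaehlerDifferential.D ℂ K (χ (Multiplicative.ofAdd (b (s i)))))
        = fun i => χ (Multiplicative.ofAdd (b (s i))) • om b χ (Pi.single (s i) 1) := by
      funext i
      exact om_single b χ (s i)
    rw [h2]
    exact (exteriorPower.ιMulti K n).toMultilinearMap.map_smul_univ _ _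
  have hP0 : ∏ k, χ (Multiplicative.ofAdd (b1 (Sum.inl k))) ≠ 0 :=
    Finset.prod_ne_zero_iff.2 fun k _ => om_chi_ne χ _
  have hdtD : dt b χ f e (fun i => Pi.single (s i) 1) = sg * D := by
    have h1 := hWx.symm.trans hlW
    have h2 : sg * ((∏ k, χ (Multiplicative.ofAdd (b1 (Sum.inl k)))) * D) =
        (∏ k, χ (Multiplicative.ofAdd (b1 (Sum.inl k)))) * (sg * D) := by ring
    rw [h2] at h1
    exact mul_left_cancel₀ hP0 h1
  have hD0 : D ≠ 0 := by
    intro h
    apply hs0
    rw [hdtD, h, mul_zero]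
  have hDv : V.v D = ∑ i, hm (f i) (V.nu χ) := by
    rw [← hsv, hdtD, V.mul _ _ hsg0 hD0, hsgv, zero_add]
  choose p hp hpv using fun i => exists_eq_hm (f i) (ne_zero_of_ind χ hG.ind i) (V.nu χ)
  have hnn : ∀ x, 0 ≤ V.nu χ (b1 x) := by
    intro x
    rcases hb with h | ⟨x0, a, ha, h⟩
    · rw [h]
      rfl
    · rw [h, hb1x]
      change 0 ≤ a * b.repr (b (σ x)) x0
      rw [Module.Basis.repr_self, Finsupp.single_apply]
      split_ifs
      · omega
      · omega
  have hnr : ∀ i, V.nu χ (b1 (Sum.inr i)) = 0 := by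
    intro i0
    rcases hb with h | ⟨x0, a, ha, h⟩
    · rw [h]
      rfl
    · by_contra hne
      have hx0 : σ (Sum.inr i0) = x0 := by
        by_contra h1
        apply hne
        rw [h, hb1x]
        change a * b.repr (b (σ (Sum.inr i0))) x0 = 0
        rw [Module.Basis.repr_self, Finsupp.single_apply, if_neg h1, mul_zero]
      rcases schSm_det V (Matrix.of fun i i' : ι =>
          dl χ (f i) (b1.coord (Sum.inr i')).toAddMonoidHom) (fun i => hm (f i) (V.nu χ)) i0
        (fun i j => schSm_entry χ hC V (f i) _)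
        (fun i => schSm_entry0 χ hC V (f i) (hχ.zero i) _ ha (by
          rw [hb1c, hx0]
          exact h)) with h2 | h2
      · exact hD0 h2
      · exact absurd hDv (ne_of_gt h2)
  have hval : ∀ x, V.v (χ (Multiplicative.ofAdd (b1 x))) = V.nu χ (b1 x) := fun x => rfl
  refine ⟨b1, p, fun x => ?_, hp, fun i m hm' x hx => ?_, ?_⟩
  · rw [V.mem _ (om_chi_ne χ _), hval]
    exact hnn x
  · have hpos : V.nu χ (b1 x) ≠ 0 := by
      intro h1
      have h2 : (χ (Multiplicative.ofAdd (b1 x)))⁻¹ ∈ O := by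
        rw [V.mem _ (inv_ne_zero (om_chi_ne χ _)), V.inv (om_chi_ne χ _), hval, h1, neg_zero]
      rw [← O.valuation_le_one_iff, map_inv₀] at h2
      have h3 : O.valuation (χ (Multiplicative.ofAdd (b1 x))) ≠ 0 :=
        (Valuation.ne_zero_iff _).2 (om_chi_ne χ _)
      have h4 := (inv_le_one₀ (zero_lt_iff.2 h3)).1 h2
      exact absurd hx (not_lt.2 h4)
    rcases hb with h | ⟨x0, a, ha, h⟩
    · exact absurd (by rw [h]; rfl) hpos
    · have hx0 : σ x = x0 := by
        by_contra h1
        apply hpos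
        rw [h, hb1x]
        change a * b.repr (b (σ x)) x0 = 0
        rw [Module.Basis.repr_self, Finsupp.single_apply, if_neg h1, mul_zero]
      have h1 : V.nu χ (m - p i) = a * b1.coord x (m - p i) := by
        have h2 := DFunLike.congr_fun (hb1c x) (m - p i)
        change b1.coord x (m - p i) = b.coord (σ x) (m - p i) at h2
        rw [h2, hx0, h]
        rfl
      have h3 : 0 ≤ V.nu χ (m - p i) := by
        rw [map_sub, hpv i]
        have := hm_le (f i) (V.nu χ) hm'
        omega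
      rw [h1] at h3
      exact nonneg_of_mul_nonneg_right h3 ha
  · have hden : ∏ i, (χ (Multiplicative.ofAdd (p i)) * χ (Multiplicative.ofAdd (b1 (Sum.inr i))))
        ≠ 0 := Finset.prod_ne_zero_iff.2 fun i _ => mul_ne_zero (om_chi_ne χ _) (om_chi_ne χ _)
    have hdv : V.v (∏ i, (χ (Multiplicative.ofAdd (p i)) *
        χ (Multiplicative.ofAdd (b1 (Sum.inr i))))) = ∑ i, hm (f i) (V.nu χ) := by
      rw [smAdj_prod V _ _ fun i _ => mul_ne_zero (om_chi_ne χ _) (om_chi_ne χ _)]
      refine Finset.sum_congr rfl fun i _ => ?_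
      rw [V.mul _ _ (om_chi_ne χ _) (om_chi_ne χ _), hval, hnr i, add_zero]
      exact hpv i
    have hq0 : D / ∏ i, (χ (Multiplicative.ofAdd (p i)) *
        χ (Multiplicative.ofAdd (b1 (Sum.inr i)))) ≠ 0 := div_ne_zero hD0 hden
    have hqv : V.v (D / ∏ i, (χ (Multiplicative.ofAdd (p i)) *
        χ (Multiplicative.ofAdd (b1 (Sum.inr i))))) = 0 := by
      rw [div_eq_mul_inv, V.mul _ _ hD0 (inv_ne_zero hden), V.inv hden, hdv, hDv]
      omega
    apply le_antisymm
    · rw [O.valuation_le_one_iff, V.mem _ hq0, hqv]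
    · have h2 : (D / ∏ i, (χ (Multiplicative.ofAdd (p i)) *
          χ (Multiplicative.ofAdd (b1 (Sum.inr i)))))⁻¹ ∈ O := by
        rw [V.mem _ (inv_ne_zero hq0), V.inv hq0, hqv, neg_zero]
      rw [← O.valuation_le_one_iff, map_inv₀] at h2
      have h3 : O.valuation (D / ∏ i, (χ (Multiplicative.ofAdd (p i)) *
          χ (Multiplicative.ofAdd (b1 (Sum.inr i))))) ≠ 0 :=
        (Valuation.ne_zero_iff _).2 hq0
      exact (inv_le_one₀ (zero_lt_iff.2 h3)).1 h2

/-- Smoothness from valuative independence.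

Proof. `V` from `exists_nval`, `ν = V.nu χ`, constants in `O` by `IsDiv.const`, `e` an equivalence
`Fin n ⊕ ι ≃ Fin d`, `d = finrank M` (`hχ.dim`). If `ν = 0` take any basis `b`, otherwise `b, x0, a`
from `exists_basis_coord`. `exists_minor` (T1/A/Min.lean) gives `s : Fin n → Fin d` with
`v (dt b χ f e (single (s i))) = ∑ hm (f i) ν`, and `≠ 0`. `s` is injective (two equal rows), let
`σ : Fin n ⊕ ι ≃ Fin d` extend it (`inl k ↦ s k`) and `b1 = b.reindex σ.symm`. With `l` from
`exists_ell b χ hG.ind hχ e`, `l (W x) = ∏ x_k * dt b χ f e (single (s i))` for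
`x_k = χ (b (s k))` (as in T1/A/Fi.lean), so by `ell_basis`
`dt b χ f e (single (s i)) = ± det (dl χ (f i) (b1.coord (inr i')))`, whose value is therefore
`∑ hm (f i) ν`. Take `p i ∈ supp (f i)` with `ν (p i) = hm (f i) ν` (`exists_eq_hm`,
`ne_zero_of_ind`). `V.v (χ (b1 x)) = ν (b1 x)` is `0`, except for `x = σ.symm x0`, where it is
`a > 0`. If `ν ≠ 0` then `x0` is in the range of `s`: otherwise `x0 = σ (inr i0)` and the column
`i0` of the last determinant has the entries `dl χ (f i) (b.coord x0)`, with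
`a * dl χ (f i) (b.coord x0) = dl χ (f i) ν = ∑_m c_m χ(m) (ν m - hm (f i) ν)` (as
`ev χ (f i) = 0`) zero or of value `> hm (f i) ν`, all other entries are zero or of value
`≥ hm (f i) ν`, and the determinant would be zero or of value `> ∑ hm (f i) ν`
(`Matrix.det_apply`, `NVal.sum`). So `v (χ (b1 (inr i))) = 0` for all `i`, and the quotient in
`SmoothAt` has value `∑ hm (f i) ν - ∑ ν (p i) = 0`. Translate from `V.v` to `O.valuation`:
`V.mem`, `O.valuation_le_one_iff`. -/
theorem Good.smoothAt {M : Type} [AddCommGroup M] [Module.Free ℤ M] [Module.Finite ℤ M]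
    {K : Type} [Field K] [Algebra ℂ K] {ι : Type} [Fintype ι] [DecidableEq ι] {f : ι → M →₀ ℂ}
    {χ : Multiplicative M →* K} {n : ℕ} (hG : Good f χ) (hχ : Pt f χ n)
    {O : ValuationSubring K} (hO : IsDiv n O) :
    SmoothAt n f (fun i => (f i).support) χ O := by
  classical
  have hC : ∀ c : ℂ, algebraMap ℂ K c ∈ O := IsDiv.const hO
  obtain ⟨V⟩ := exists_nval O hO.1
  by_cases h0 : V.nu χ = 0
  · exact schSm_aux hG hχ hC V (Module.finBasis ℤ M) (Or.inl h0)
  · obtain ⟨b, x0, a, ha, hb⟩ := exists_basis_coord (V.nu χ) h0 (d := Module.finrank ℤ M) rfl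
    exact schSm_aux hG hχ hC V b (Or.inr ⟨x0, a, ha, hb⟩)

end T3
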