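import Pool.Agent.Lib.MP_23b606_ag.T3.Main
import Pool.Agent.Lib.MP_23b606_ag.T3.SchSm

/-! Cor: schoen varieties and canonical singularities. -/

set_option autoImplicit false

namespace T3

open T1

/-- A variety which is nondegenerate with respect to the `f i` satisfies `SmoothAt` at all
divisorial valuation rings. -/
theorem smoothAt_of_nondegAt {M : Type} [AddCommGroup M] [Module.Free ℤ M] [Module.Finite ℤ M]
    {K : Type} [Field K] [Algebra ℂ K] {ι : Type} [Fintype ι] [DecidableEq ι] {f : ι → M →₀ ℂ}
    {χ : Multiplicative M →* K} {n : ℕ} (hf : NondegAt f χ) (hχ : Pt f χ n)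
    {O : ValuationSubring K} (hO : IsDiv n O) : SmoothAt n f (fun i => (f i).support) χ O := by
  have h1 : NondegOn {g : M →₀ ℂ | ev χ g = 0} f := hf
  exact Good.smoothAt (h1.good χ fun g hg => hg) hχ hO

/-- For canonical singularities (forms which are regular at all the `O ∈ D` are regular at all
divisorial valuation rings) the hypothesis is that the Kodaira dimension of `K` is `-∞`. -/
theorem kodairaNegOn_of_canonical {K : Type} [Field K] [Algebra ℂ K]
    {D : Set (ValuationSubring K)} {n : ℕ}
    (hcan : ∀ (x : Fin n → K) (m : ℕ) (g : K), 1 ≤ m → (∀ O ∈ D, RegularAt O x m g) →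
      ∀ O : ValuationSubring K, IsDiv n O → RegularAt O x m g)
    (hκ : KodairaNegInf K n) : KodairaNegOn D n :=
  fun x m g hx hm h => hκ x m g hx hm (hcan x m g hm h)

/-- With all divisorial valuation rings the hypothesis is that the Kodaira dimension is `-∞`. -/
theorem kodairaNegOn_iff {K : Type} [Field K] [Algebra ℂ K] {n : ℕ} :
    KodairaNegOn {O : ValuationSubring K | IsDiv n O} n ↔ KodairaNegInf K n := Iff.rfl

/-- Theorem T1 is a special case of Theorem T3. -/
theorem main_at' {M : Type} [AddCommGroup M] [Module.Free ℤ M] [Module.Finite ℤ M]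
    {K : Type} [Field K] [Algebra ℂ K] {ι : Type} [Fintype ι] {f : ι → M →₀ ℂ}
    (χ : Multiplicative M →* K) (hf : NondegAt f χ) {n : ℕ} (hχ : Pt f χ n)
    (hκ : KodairaNegInf K n) : Uniruled K := by
  classical
  exact main3_smooth (B := fun i => (f i).support) (fun i => le_rfl) χ hχ
    (D := {O : ValuationSubring K | IsDiv n O})
    (fun O hO => ⟨hO, smoothAt_of_nondegAt hf hχ hO⟩) (kodairaNegOn_iff.2 hκ)

end T3
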