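import Pool.Agent.Lib.MP_23b606_ag.T3.Cmp
import Pool.Agent.Lib.MP_23b606_ag.T3.ElimPt
import Pool.Agent.Lib.MP_23b606_ag.T3.Bas
import Pool.Agent.Lib.MP_23b606_ag.T3.Blk
import Pool.Agent.Lib.MP_23b606_ag.T3.Bnd

/-! Elim: the reduced system satisfies the hypotheses (row T3-7). -/

set_option autoImplicit false

open scoped BigOperators KaehlerDifferential

namespace T3

open T1

/-- The value of a product. -/
theorem el3_v_prod {K : Type} [Field K] {O : ValuationSubring K} (V : NVal O) {α : Type}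
    (s : Finset α) (x : α → K) (hx : ∀ i, x i ≠ 0) : V.v (∏ i ∈ s, x i) = ∑ i ∈ s, V.v (x i) := by
  classical
  induction s using Finset.induction_on with
  | empty => rw [Finset.prod_empty, Finset.sum_empty, V.one]
  | insert a t ha ih =>
    rw [Finset.prod_insert ha, Finset.sum_insert ha,
      V.mul _ _ (hx a) (Finset.prod_ne_zero_iff.2 fun i _ => hx i), ih]

theorem el3_hm_zero {M : Type} [AddCommGroup M] (f : M →₀ ℂ) : hm f 0 = 0 := by
  by_cases hf : f = 0
  · subst hf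
    unfold hm
    rw [dif_neg]
    simp
  · obtain ⟨m, -, h⟩ := exists_eq_hm f hf 0
    rw [← h]
    rfl

/-- The adjunction inequality passes to the reduced system.

Proof. Put `p i := dd (f i) nn lam = 0`, `S = {i // ¬ p i}`. Given `b0, e0, l0` for the reduced
system; `b` extends `b0` (`exists_basis_ext`, `M0_sat`; the number of the `S` is right by the
bijection `e0`, `hχ.dim` and `Pt` of the reduced system), `d = finrank M`, `E` any equivalence,
`l` from `exists_ell (b.reindex E) χ hG.ind hχ (eE p e0 E)`. `hG.adj` gives `α, nk, a` for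
`O, V`. By `ell_eq` `l (W a) = ∏ χ(a_i) * Δ * l0 (W a) ≠ 0`. `Z = {k : nk k ∘ rho = 0}`,
`v_det_ge` (with `θ s = b.coord (inr s)`, `comb_of_zero`) gives
`v(Δ) ≥ ∑_{s ∈ S} hm (g s) ν + card Z`, so
`v(l0 (W a)) ≤ ∑_{i : p i} (hm (g i) ν - ν (a i)) + card {k // nk k ∘ rho ≠ 0}`, which is the
assertion for `α0 = {k // nk k ∘ rho ≠ 0}`, `nk0 k = nk k ∘ rho` and the same `a`, because
`hm (g i) n' = hm (sh .. (g i)) (n' ∘ rho) + n' (a i)` (`sh_hm`), `hm _ 0 = 0`,
`(V.nu χ) ∘ rho = V.nu χ0` (`rfl`). Sums over `ι`: `Fintype.sum_subtype_add_sum_subtype`. -/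
theorem elim_adj {M : Type} [AddCommGroup M] [Module.Free ℤ M] [Module.Finite ℤ M]
    {K : Type} [Field K] [Algebra ℂ K] {ι : Type} [Fintype ι] {f g : ι → M →₀ ℂ}
    (χ : Multiplicative M →* K) {D : Set (ValuationSubring K)} {n : ℕ} (hG : GoodK D f g χ n)
    (hχ : Pt f χ n) {J : Type} [Fintype J] {nn : J → M →+ ℤ} {lam : J → ℕ}
    (a : {i // dd (f i) nn lam = 0} → M)
    (hshg : ∀ i : {i // dd (f i) nn lam = 0}, ∀ m ∈ (g i.1).support,
      ∃ m0, rho nn m0 + a i = m)
    (hχ0 : Pt (fun i : {i // dd (f i) nn lam = 0} =>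
      sh (rho nn) (rho_inj nn) (a i) (f i.1)) (χ.comp (AddMonoidHom.toMultiplicative (rho nn))) n)
    {d0 : ℕ} (b0 : Module.Basis (Fin d0) ℤ (M0 nn))
    (e0 : Fin n ⊕ {i // dd (f i) nn lam = 0} ≃ Fin d0) (l0 : ⋀[K]^n Ω[K⁄ℂ] →ₗ[K] K)
    (hl0 : IsEll b0 (χ.comp (AddMonoidHom.toMultiplicative (rho nn)))
      (fun i : {i // dd (f i) nn lam = 0} => sh (rho nn) (rho_inj nn) (a i) (f i.1)) e0 l0)
    (O : ValuationSubring K) (hO : O ∈ D) (V : NVal O) :
    Adj (fun i : {i // dd (f i) nn lam = 0} => sh (rho nn) (rho_inj nn) (a i) (g i.1))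
      (χ.comp (AddMonoidHom.toMultiplicative (rho nn))) l0 V := by
  classical
  obtain ⟨rh, hrh⟩ : ∃ rh : M0 nn →+ M, rh = rho nn := ⟨_, rfl⟩
  -- the basis
  have hcard : Fintype.card {i // dd (f i) nn lam = 0} +
      Fintype.card {i // ¬ dd (f i) nn lam = 0} = Fintype.card ι := by
    rw [← Fintype.card_sum]
    exact Fintype.card_congr (Equiv.sumCompl fun i => dd (f i) nn lam = 0)
  have hd0 : n + Fintype.card {i // dd (f i) nn lam = 0} = d0 := by
    have h1 := Fintype.card_congr e0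
    rwa [Fintype.card_sum, Fintype.card_fin, Fintype.card_fin] at h1
  have hS : d0 + Fintype.card {i // ¬ dd (f i) nn lam = 0} = Module.finrank ℤ M := by
    rw [← hχ.dim]
    omega
  obtain ⟨b, hb⟩ := exists_basis_ext (M0 nn) (M0_sat nn) b0 {i // ¬ dd (f i) nn lam = 0} hS
  let E : Fin d0 ⊕ {i // ¬ dd (f i) nn lam = 0} ≃
    Fin (Fintype.card (Fin d0 ⊕ {i // ¬ dd (f i) nn lam = 0})) := Fintype.equivFin _
  obtain ⟨l, -, hl⟩ := exists_ell (b.reindex E) χ hG.ind hχ
    (eE (fun i => dd (f i) nn lam = 0) e0 E)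
  obtain ⟨α, hα, nk, x, hnk0, hν, hadd, hxO, hlx, hle⟩ := hG.adj _ (b.reindex E)
    (eE (fun i => dd (f i) nn lam = 0) e0 E) l hl O hO V
  have hshf : ∀ i : {i // dd (f i) nn lam = 0}, ∀ m ∈ (f i.1).support,
      ∃ m0, rho nn m0 + a i = m := fun i m hm => hshg i m (hG.sub i.1 hm)
  have hell := ell_eq (rho nn) (rho_inj nn) χ f hχ.zero (fun i => dd (f i) nn lam = 0) a hshf b0 b
    hb e0 hχ0.gen l0 hl0 E l hl x
  set Δ : K := Matrix.det (Matrix.of fun s s' : {i // ¬ dd (f i) nn lam = 0} =>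
        dl χ (f s.1) (b.coord (Sum.inr s')).toAddMonoidHom) with hΔ
  rw [hell] at hlx hle
  have hl0x : l0 (W x) ≠ 0 := right_ne_zero_of_mul hlx
  have hpΔ := left_ne_zero_of_mul hlx
  have hΔ0 : Δ ≠ 0 := right_ne_zero_of_mul hpΔ
  have hp0 : (∏ i, χ (Multiplicative.ofAdd (a i))) ≠ 0 := left_ne_zero_of_mul hpΔ
  rw [V.mul _ _ hpΔ hl0x, V.mul _ _ hp0 hΔ0, el3_v_prod V _ _ fun i => om_chi_ne χ (a i)] at hle
  -- the bound for the determinant
  set Z : Finset α := Finset.univ.filter fun k => (nk k).comp (rho nn) = 0 with hZdef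
  have hdet := v_det_ge V (IsDiv.const (hG.dv O hO)) χ
    (fun s : {i // ¬ dd (f i) nn lam = 0} => f s.1) (fun s => g s.1) (fun s => hχ.zero s.1)
    (fun s => hG.sub s.1) (fun s => (b.coord (Sum.inr s)).toAddMonoidHom) nk hν
    (fun s => hadd s.1) Z (fun k _ => hnk0 k) (by
      intro k hk
      refine ⟨fun s => nk k (b (Sum.inr s)), comb_of_zero b (nk k) fun j => ?_⟩
      rw [hb]
      have h1 := (Finset.mem_filter.1 hk).2
      exact DFunLike.congr_fun h1 (b0 j)) hΔ0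
  have hg0 : ∀ i, g i ≠ 0 := by
    intro i h0
    have h1 : f i ≠ 0 := by
      intro h2
      apply hG.ind.ne_zero i
      rw [h2]
      funext n'
      rfl
    have h3 := hG.sub i
    rw [h0, Finsupp.support_zero, Finset.subset_empty, Finsupp.support_eq_empty] at h3
    exact h1 h3
  have hnu : V.nu (χ.comp (AddMonoidHom.toMultiplicative (rho nn))) =
      (V.nu χ).comp (rho nn) := rfl
  -- sums over the subtype
  have hsub : ∀ (N : Type) [AddCommMonoid N] (F : (M0 nn →+ ℤ) → N), F 0 = 0 →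
      ∑ k : {k : α // (nk k).comp (rho nn) ≠ 0}, F ((nk k.1).comp (rho nn)) =
        ∑ k, F ((nk k).comp (rho nn)) := by
    intro N _ F hF
    rw [← Finset.sum_subtype (Finset.univ.filter fun k : α => (nk k).comp (rho nn) ≠ 0)
      (by simp) fun k => F ((nk k).comp (rho nn))]
    refine Finset.sum_subset (Finset.filter_subset _ _) fun k _ hk => ?_
    rw [Finset.mem_filter, not_and, not_not] at hk
    rw [hk (Finset.mem_univ k), hF]
  have hshm : ∀ (i : {i // dd (f i) nn lam = 0}) (n' : M →+ ℤ), hm (g i.1) n' =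
      hm (sh (rho nn) (rho_inj nn) (a i) (g i.1)) (n'.comp (rho nn)) + n' (a i) := fun i n' =>
    sh_hm (rho nn) (rho_inj nn) (a i) (g i.1) (hg0 i.1) (hshg i) n'
  have hνa : ∀ m, V.nu χ m = ∑ k, nk k m := by
    intro m
    rw [hν, AddMonoidHom.finsetSum_apply]
  refine ⟨{k : α // (nk k).comp (rho nn) ≠ 0}, inferInstance, fun k => (nk k.1).comp (rho nn), x,
    fun k => k.2, ?_, ?_, hxO, hl0x, ?_⟩
  · rw [hnu, hsub (M0 nn →+ ℤ) (fun F => F) rfl, hν]
    ext m
    rw [AddMonoidHom.comp_apply, AddMonoidHom.finsetSum_apply, AddMonoidHom.finsetSum_apply]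
    rfl
  · intro i
    rw [hnu, hsub ℤ (fun F => hm (sh (rho nn) (rho_inj nn) (a i) (g i.1)) F) (el3_hm_zero _)]
    have h1 := hadd i.1
    rw [hshm i, Finset.sum_congr rfl fun k _ => hshm i (nk k), Finset.sum_add_distrib,
      hνa (a i)] at h1
    exact add_right_cancel h1
  · have hcα : Fintype.card {k : α // (nk k).comp (rho nn) ≠ 0} + Z.card = Fintype.card α := by
      rw [hZdef, Fintype.card_subtype, ← Finset.card_univ, add_comm]
      exact Finset.card_filter_add_card_filter_not _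
    have hsum : ∑ i, hm (g i) (V.nu χ) =
        ∑ i : {i // dd (f i) nn lam = 0}, hm (g i.1) (V.nu χ) +
          ∑ i : {i // ¬ dd (f i) nn lam = 0}, hm (g i.1) (V.nu χ) :=
      (Fintype.sum_subtype_add_sum_subtype (fun i => dd (f i) nn lam = 0)
        fun i => hm (g i) (V.nu χ)).symm
    have hsum2 : ∑ i : {i // dd (f i) nn lam = 0}, hm (g i.1) (V.nu χ) =
        ∑ i : {i // dd (f i) nn lam = 0}, hm (sh (rho nn) (rho_inj nn) (a i) (g i.1))
          ((V.nu χ).comp (rho nn)) + ∑ i : {i // dd (f i) nn lam = 0}, V.nu χ (a i) := by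
      rw [← Finset.sum_add_distrib]
      exact Finset.sum_congr rfl fun i _ => hshm i _
    have hva : ∑ i : {i // dd (f i) nn lam = 0}, V.v (χ (Multiplicative.ofAdd (a i))) =
        ∑ i : {i // dd (f i) nn lam = 0}, V.nu χ (a i) := rfl
    rw [hva] at hle
    rw [hnu]
    have hdet' : ∑ s : {i // ¬ dd (f i) nn lam = 0}, hm (g s.1) (V.nu χ) + (Z.card : ℤ) ≤
        V.v Δ := hdet
    have hcα' : (Fintype.card {k : α // (nk k).comp (rho nn) ≠ 0} : ℤ) + (Z.card : ℤ) =
        (Fintype.card α : ℤ) := by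
      exact_mod_cast hcα
    linarith

end T3
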