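import Pool.Agent.Lib.MP_23b606_ag.T3.Defs

/-! NotNeg: a lattice point of the Fine interior gives a pluricanonical form which is regular on
`D` (row T3-2). -/

set_option autoImplicit false

open scoped BigOperators KaehlerDifferential

namespace T3

open T1

private theorem NotNeg_ne {M : Type} [AddCommGroup M] {K : Type} [Field K]
    (χ : Multiplicative M →* K) (x : Multiplicative M) : χ x ≠ 0 := fun hx => by
  have h : χ (x * x⁻¹) = 0 := by rw [map_mul, hx, zero_mul]
  rw [mul_inv_cancel, map_one] at h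
  exact one_ne_zero h

/-- The proof is that of `T1.not_kodairaNeg` (T1/A/Fi.lean; copy it), with the tuple `a` of
`hG.adj` instead of `exists_tuple`: for `O ∈ D` take a normalised valuation `V` (`exists_nval`,
`O` is a DVR by `hG.dv`), `hG.adj _ b e l hl O hO V` gives `α, nn, a` with
`v (l (W a)) ≤ ∑ hm (g i) ν + card α`. Then `V.nu χ m0 = ∑ k, nn k m0
≥ ∑ k, m (∑ i, hm (g i) (nn k) + 1) = m (∑ i, hm (g i) ν + card α) ≥ m v (l (W a))`, so
`χ(m0) / l(W a)^m ∈ O`. -/
theorem not_negOn {M : Type} [AddCommGroup M] [Module.Free ℤ M] [Module.Finite ℤ M]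
    {K : Type} [Field K] [Algebra ℂ K] {ι : Type} [Fintype ι] {f g : ι → M →₀ ℂ}
    (χ : Multiplicative M →* K) {D : Set (ValuationSubring K)} {n : ℕ} (hG : GoodK D f g χ n)
    (hχ : Pt f χ n) (m : ℕ) (hm1 : 1 ≤ m) (m0 : M)
    (hFI : ∀ n' : M →+ ℤ, n' ≠ 0 → (m : ℤ) * (∑ i, hm (g i) n' + 1) ≤ n' m0) :
    ¬ NegOn D n := by
  intro hneg
  set b : Module.Basis (Fin (Module.finrank ℤ M)) ℤ M := Module.finBasis ℤ M with hb
  have hcard : Fintype.card (Fin n ⊕ ι) = Fintype.card (Fin (Module.finrank ℤ M)) := by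
    rw [Fintype.card_sum, Fintype.card_fin, Fintype.card_fin, hχ.dim]
  set e : Fin n ⊕ ι ≃ Fin (Module.finrank ℤ M) := Fintype.equivOfCardEq hcard with he
  obtain ⟨l, hlinj, hl⟩ := exists_ell b χ hG.ind hχ e
  obtain ⟨s, hs⟩ := exists_unit_minor (fun i => row b χ (f i)) (row_independent b χ hG.ind) e
  have hdt : dt b χ f e (fun i => Pi.single (s i) 1) ≠ 0 := hs
  set x : Fin n → K := fun i => χ (Multiplicative.ofAdd (b (s i))) with hx
  have hWx : W x = (∏ i, x i) • exteriorPower.ιMulti K n fun i => om b χ (Pi.single (s i) 1) := by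
    unfold W
    have h1 : (fun i => KaehlerDifferential.D ℂ K (x i))
        = fun i => x i • om b χ (Pi.single (s i) 1) := by
      funext i
      exact om_single b χ (s i)
    rw [h1]
    exact (exteriorPower.ιMulti K n).toMultilinearMap.map_smul_univ _ _
  have hlx : l (W x) ≠ 0 := by
    rw [hWx, map_smul, hl, smul_eq_mul]
    exact mul_ne_zero (Finset.prod_ne_zero_iff.mpr fun i _ => NotNeg_ne χ _) hdt
  have hWx0 : W x ≠ 0 := by
    intro h
    rw [h, map_zero] at hlx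
    exact hlx rfl
  have hg0 : χ (Multiplicative.ofAdd m0) / (l (W x)) ^ m ≠ 0 :=
    div_ne_zero (NotNeg_ne χ _) (pow_ne_zero _ hlx)
  refine hg0 (hneg x m _ hWx0 hm1 ?_)
  intro O hO
  obtain ⟨V⟩ := exists_nval O (hG.dv O hO).1
  obtain ⟨α, _, nn, a, hnn, hnu, hadd, haO, hla, hval⟩ := hG.adj _ b e l hl O hO V
  refine ⟨a, χ (Multiplicative.ofAdd m0) / (l (W a)) ^ m, l (W a) / l (W x), haO, ?_, ?_, ?_⟩
  · have hc0 : χ (Multiplicative.ofAdd m0) / (l (W a)) ^ m ≠ 0 :=
      div_ne_zero (NotNeg_ne χ _) (pow_ne_zero _ hla)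
    rw [V.mem _ hc0]
    have h1 : V.v (χ (Multiplicative.ofAdd m0) / (l (W a)) ^ m)
        = V.nu χ m0 - m * V.v (l (W a)) := by
      have h2 : (l (W a)) ^ m = (l (W a)) ^ (m : ℤ) := (zpow_natCast _ _).symm
      rw [div_eq_mul_inv, V.mul _ _ (NotNeg_ne χ _) (inv_ne_zero (pow_ne_zero _ hla)),
        V.inv (pow_ne_zero _ hla), h2, V.zpow hla]
      rfl
    rw [h1]
    have h3 : (m : ℤ) * (∑ i, hm (g i) (V.nu χ) + (Fintype.card α : ℤ)) ≤ V.nu χ m0 := by
      have h4 : ∑ k, (m : ℤ) * (∑ i, hm (g i) (nn k) + 1) ≤ ∑ k, nn k m0 :=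
        Finset.sum_le_sum fun k _ => hFI (nn k) (hnn k)
      have h5 : V.nu χ m0 = ∑ k, nn k m0 := by
        rw [hnu, AddMonoidHom.finsetSum_apply]
      have h6 : ∑ i, hm (g i) (V.nu χ) = ∑ k, ∑ i, hm (g i) (nn k) := by
        rw [Finset.sum_comm]
        exact Finset.sum_congr rfl fun i _ => hadd i
      rw [← Finset.mul_sum, Finset.sum_add_distrib, ← h6, Finset.sum_const, Finset.card_univ,
        nsmul_eq_mul, mul_one, ← h5] at h4
      exact h4
    have h7 : (m : ℤ) * V.v (l (W a)) ≤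
        (m : ℤ) * (∑ i, hm (g i) (V.nu χ) + (Fintype.card α : ℤ)) :=
      mul_le_mul_of_nonneg_left hval (Int.natCast_nonneg m)
    linarith
  · apply hlinj
    rw [map_smul, smul_eq_mul, div_mul_cancel₀ _ hlx]
  · rw [div_pow]
    field_simp

end T3
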