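import Pool.Agent.Lib.MP_23b606_ag.T3.Defs

/-! Sch: the schoen case (row T3-10). -/

set_option autoImplicit false

open scoped BigOperators KaehlerDifferential

namespace T3

open T1

private theorem Sch_hm_zero {M : Type} [AddCommGroup M] (f : M →₀ ℂ) : hm f 0 = 0 := by
  by_cases hf : f = 0
  · unfold hm
    rw [dif_neg]
    rw [Finsupp.support_nonempty_iff]
    exact fun h => h hf
  · obtain ⟨m, -, h2⟩ := exists_eq_hm f hf 0
    rw [← h2]
    rfl

/-- `T1.Good` is the case `g = f`, `D` all divisorial valuation rings, `α` with at most one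
element: `exists_tuple` (T1/A/Reg.lean) with `α = PEmpty` if `V.nu χ = 0` (`hm _ 0 = 0`) and
`α = Unit`, `nn = V.nu χ` otherwise. -/
theorem goodK_of_good {M : Type} [AddCommGroup M] {K : Type} [Field K] [Algebra ℂ K] {ι : Type}
    [Fintype ι] {f : ι → M →₀ ℂ} {χ : Multiplicative M →* K} (hG : Good f χ) (n : ℕ) :
    GoodK {O : ValuationSubring K | IsDiv n O} f f χ n := by
  refine ⟨hG.ind, fun i => Finset.Subset.refl _, fun O hO => hO,
    fun d b e l hl O hO V => ?_⟩
  have hc : ∀ c : ℂ, algebraMap ℂ K c ∈ O := IsDiv.const hO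
  obtain ⟨a, ha, h1, h2, h3⟩ := exists_tuple b χ e l hl O V hc (hG.vind O V hc)
  by_cases h0 : V.nu χ = 0
  · refine ⟨Empty, inferInstance, fun x => x.elim, a, fun x => x.elim, ?_, fun i => ?_, ha, h1, ?_⟩
    · rw [h0, Finset.univ_eq_empty, Finset.sum_empty]
    · rw [h0, Sch_hm_zero, Finset.univ_eq_empty, Finset.sum_empty]
    · have h4 := h3 h0
      simp only [h0, Sch_hm_zero, Finset.sum_const_zero, Fintype.card_empty, Nat.cast_zero,
        add_zero]
      exact h4
  · refine ⟨Unit, inferInstance, fun _ => V.nu χ, a, fun _ => h0, ?_, fun i => ?_, ha, h1, ?_⟩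
    · rw [Finset.univ_unique, Finset.sum_singleton]
    · rw [Finset.univ_unique, Finset.sum_singleton]
    · rw [Fintype.card_unit, Nat.cast_one]
      exact h2

/-- On a function field of transcendence degree `n` there is `x` with `jac E x ≠ 0` for some `E`:
a transcendence basis `x : Fin n → K`, `linearIndependent_D` (T1/A/Om.lean), then `W x ≠ 0`
(`exists_jac_ne_zero`), or directly. -/
theorem exists_jac {K : Type} [Field K] [Algebra ℂ K] {n : ℕ} (h : Algebra.trdeg ℂ K = n) :
    ∃ (x : Fin n → K) (E : Fin n → Derivation ℂ K K), jac E x ≠ 0 := by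
  classical
  obtain ⟨q, y, hy⟩ := exists_isTranscendenceBasis' ℂ K
  have h1 := hy.cardinalMk_eq_trdeg
  rw [h, ← Cardinal.mk_fin n] at h1
  obtain ⟨σ⟩ := Cardinal.eq.1 h1
  have hli : LinearIndependent K fun i : Fin n => KaehlerDifferential.D ℂ K (y (σ.symm i)) :=
    linearIndependent_D (fun i => y (σ.symm i)) (hy.1.comp _ σ.symm.injective)
  set v := fun i : Fin n => KaehlerDifferential.D ℂ K (y (σ.symm i)) with hv
  let b := Module.Basis.span hli
  have hφ : ∀ i, ∃ φ : Ω[K⁄ℂ] →ₗ[K] K, ∀ j, φ (v j) = if j = i then 1 else 0 := by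
    intro i
    obtain ⟨φ, hφ⟩ := LinearMap.exists_extend (b.coord i)
    refine ⟨φ, fun j => ?_⟩
    have h1 : (b j : Ω[K⁄ℂ]) = v j := congrArg Subtype.val (Module.Basis.span_apply hli j)
    rw [← h1]
    have h2 : φ (b j : Ω[K⁄ℂ]) = (b.coord i) (b j) := by rw [← hφ]; rfl
    rw [h2, Module.Basis.coord_apply, Module.Basis.repr_self, Finsupp.single_apply]
  choose φ hφ using hφ
  refine ⟨fun i => y (σ.symm i), fun i => (φ i).compDer (KaehlerDifferential.D ℂ K), ?_⟩
  have h2 : (Matrix.of fun i j => ((φ i).compDer (KaehlerDifferential.D ℂ K)) (y (σ.symm j)))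
      = (1 : Matrix (Fin n) (Fin n) K) := by
    ext i j
    rw [Matrix.of_apply, Matrix.one_apply]
    show φ i (v j) = _
    rw [hφ i j]
    simp [eq_comm]
  unfold jac
  rw [h2, Matrix.det_one]
  exact one_ne_zero

end T3
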