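import Pool.Agent.Lib.MP_23b606_ag.T3.EllB

/-! SmAdj: adjunction at smooth points (row T3-9). -/

set_option autoImplicit false

open scoped BigOperators KaehlerDifferential

namespace T3

open T1

/-- The logarithmic differentials are independent if one minor is not zero. -/
theorem ind_of_det {M : Type} [AddCommGroup M] {K : Type} [Field K] [Algebra ℂ K] {ι : Type}
    [Fintype ι] [DecidableEq ι] (χ : Multiplicative M →* K) (f : ι → M →₀ ℂ) (θ : ι → M →+ ℤ)
    (h : Matrix.det (Matrix.of fun i i' : ι => dl χ (f i) (θ i')) ≠ 0) :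
    LinearIndependent K fun i => dl χ (f i) := by
  let T : ((M →+ ℤ) → K) →ₗ[K] (ι → K) := LinearMap.pi fun i' => LinearMap.proj (θ i')
  refine LinearIndependent.of_comp T ?_
  exact Matrix.linearIndependent_rows_of_det_ne_zero h

theorem smAdj_hm {M : Type} [AddCommGroup M] (B : Finset M) (θ : M →+ ℤ) (p : M) (hp : p ∈ B)
    (h : ∀ m ∈ B, θ p ≤ θ m) : hm (indB B) θ = θ p := by
  have hne : (indB B).support.Nonempty := ⟨p, by rw [indB_support]; exact hp⟩
  rw [hm, dif_pos hne]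
  apply le_antisymm
  · exact Finset.inf'_le _ (by rw [indB_support]; exact hp)
  · rw [Finset.le_inf'_iff]
    intro m hm'
    rw [indB_support] at hm'
    exact h m hm'

theorem smAdj_lt {K : Type} [Field K] {O : ValuationSubring K} (V : NVal O) {y : K} (hy : y ≠ 0)
    (h : 0 < V.v y) : O.valuation y < 1 := by
  by_contra hc
  rw [not_lt] at hc
  have h1 : y⁻¹ ∈ O := by
    rw [← O.valuation_le_one_iff, map_inv₀]
    exact inv_le_one_of_one_le₀ hc
  rw [V.mem _ (inv_ne_zero hy), V.inv hy] at h1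
  omega

theorem smAdj_eq {K : Type} [Field K] {O : ValuationSubring K} (V : NVal O) {y : K}
    (h : O.valuation y = 1) : y ≠ 0 ∧ V.v y = 0 := by
  have hy : y ≠ 0 := by
    rintro rfl
    rw [map_zero] at h
    exact zero_ne_one h
  refine ⟨hy, ?_⟩
  have h1 : y ∈ O := (O.valuation_le_one_iff _).1 h.le
  have h2 : y⁻¹ ∈ O := by
    rw [← O.valuation_le_one_iff, map_inv₀, h, inv_one]
  rw [V.mem _ hy] at h1
  rw [V.mem _ (inv_ne_zero hy), V.inv hy] at h2
  omega

theorem smAdj_prod {K : Type} [Field K] {O : ValuationSubring K} (V : NVal O) {α : Type}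
    (S : Finset α) (x : α → K) (hx : ∀ i ∈ S, x i ≠ 0) :
    V.v (∏ i ∈ S, x i) = ∑ i ∈ S, V.v (x i) := by
  classical
  induction S using Finset.induction_on with
  | empty => rw [Finset.prod_empty, Finset.sum_empty, V.one]
  | insert a S ha ih =>
    rw [Finset.prod_insert ha, Finset.sum_insert ha, V.mul _ _ (hx a (Finset.mem_insert_self a S))
      (Finset.prod_ne_zero_iff.2 fun i hi => hx i (Finset.mem_insert_of_mem hi)),
      ih fun i hi => hx i (Finset.mem_insert_of_mem hi)]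

theorem smAdj_sign {K : Type} [Field K] {O : ValuationSubring K} (V : NVal O) {s : K}
    (h : s = 1 ∨ s = -1) : s ≠ 0 ∧ V.v s = 0 := by
  rcases h with rfl | rfl
  · exact ⟨one_ne_zero, V.one⟩
  · have h0 : (-1 : K) ≠ 0 := neg_ne_zero.2 one_ne_zero
    refine ⟨h0, ?_⟩
    have h1 := V.mul (-1) (-1) h0 h0
    rw [neg_mul_neg, one_mul, V.one] at h1
    omega

/-- Adjunction: smoothness of the complete intersection at the centre of `O` implies the
adjunction inequality.

Proof. Take `b1, p` from `SmoothAt`. `α = Σ x, Fin (V.v (χ (b1 x))).toNat`, `nn ⟨x, _⟩ = b1.coord x`,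
`a k = χ (b1 (inl k))`. `V.nu χ = ∑_x V.v (χ (b1 x)) • b1.coord x` (a homomorphism is determined by
its values on the basis; `V.v (χ (b1 x)) ≥ 0` as `χ (b1 x) ∈ O`, `V.mem`). For
`V.v (χ (b1 x)) > 0` (equivalently `O.valuation (χ (b1 x)) < 1`) the minimum of `b1.coord x` on
`B i` is at `p i`, hence also the minimum of `ν`, so `hm (indB (B i)) ν = ν (p i)`,
`hm (indB (B i)) (b1.coord x) = b1.coord x (p i)`: additivity. By `ell_basis`
`v (l (W a)) = ∑_k v (χ (b1 (inl k))) + v (det) = ∑_k .. + ∑_i (ν (p i) + v (χ (b1 (inr i))))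
= card α + ∑_i hm (indB (B i)) ν` (the quotient in `SmoothAt` has value `0`). -/
theorem SmoothAt.adj {M : Type} [AddCommGroup M] {K : Type} [Field K] [Algebra ℂ K] {ι : Type}
    [Fintype ι] [DecidableEq ι] {d n : ℕ} (b : Module.Basis (Fin d) ℤ M)
    (χ : Multiplicative M →* K) (f : ι → M →₀ ℂ) (B : ι → Finset M) (e : Fin n ⊕ ι ≃ Fin d)
    (l : ⋀[K]^n Ω[K⁄ℂ] →ₗ[K] K) (hl : IsEll b χ f e l) {O : ValuationSubring K}
    (hS : SmoothAt n f B χ O) (V : NVal O) : Adj (fun i => indB (B i)) χ l V := by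
  obtain ⟨b1, p, hO, hp, hmin, hval⟩ := hS
  have hχ0 : ∀ m : M, χ (Multiplicative.ofAdd m) ≠ 0 := om_chi_ne χ
  have hk0 : ∀ x, 0 ≤ V.v (χ (Multiplicative.ofAdd (b1 x))) := fun x =>
    (V.mem _ (hχ0 _)).1 (hO x)
  have hnu : ∀ m : M, V.nu χ m = ∑ x, V.v (χ (Multiplicative.ofAdd (b1 x))) * b1.coord x m := by
    intro m
    conv_lhs => rw [← b1.sum_repr m]
    rw [map_sum]
    refine Finset.sum_congr rfl fun x _ => ?_
    rw [map_zsmul, smul_eq_mul, mul_comm]
    rfl
  have hsum : ∀ F : (Fin n ⊕ ι) → ℤ,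
      ∑ k : (Σ x : Fin n ⊕ ι, Fin (V.v (χ (Multiplicative.ofAdd (b1 x)))).toNat), F k.1 =
        ∑ x, V.v (χ (Multiplicative.ofAdd (b1 x))) * F x := by
    intro F
    rw [Fintype.sum_sigma]
    refine Finset.sum_congr rfl fun x _ => ?_
    dsimp only
    rw [Finset.sum_const, Finset.card_univ, Fintype.card_fin, nsmul_eq_mul,
      Int.toNat_of_nonneg (hk0 x)]
  have hle : ∀ i, ∀ m ∈ B i, V.nu χ (p i) ≤ V.nu χ m := by
    intro i m hm'
    have h1 : V.nu χ m - V.nu χ (p i) = V.nu χ (m - p i) := (map_sub _ _ _).symm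
    have h2 : 0 ≤ V.nu χ (m - p i) := by
      rw [hnu]
      refine Finset.sum_nonneg fun x _ => ?_
      rcases (hk0 x).eq_or_lt with h3 | h3
      · rw [← h3, zero_mul]
      · exact mul_nonneg (hk0 x) (hmin i m hm' x (smAdj_lt V (hχ0 _) h3))
    omega
  have hhm : ∀ i, hm (indB (B i)) (V.nu χ) = V.nu χ (p i) := fun i =>
    smAdj_hm (B i) _ (p i) (hp i) (hle i)
  have hcard : ((Fintype.card (Σ x : Fin n ⊕ ι,
      Fin (V.v (χ (Multiplicative.ofAdd (b1 x)))).toNat) : ℕ) : ℤ) =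
      ∑ x, V.v (χ (Multiplicative.ofAdd (b1 x))) := by
    have h1 := hsum fun _ => 1
    simp only [mul_one] at h1
    rw [← h1, Finset.sum_const, Finset.card_univ, nsmul_eq_mul, mul_one]
  obtain ⟨s, hs, hls⟩ := ell_basis b χ f e l hl b1
  obtain ⟨hq0, hqv⟩ := smAdj_eq V hval
  set D := Matrix.det (Matrix.of fun i i' : ι =>
    dl χ (f i) (b1.coord (Sum.inr i')).toAddMonoidHom) with hD
  have hD0 : D ≠ 0 := by
    intro h
    rw [h, zero_div] at hq0
    exact hq0 rfl
  have hden : ∏ i, (χ (Multiplicative.ofAdd (p i)) * χ (Multiplicative.ofAdd (b1 (Sum.inr i)))) ≠ 0 :=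
    Finset.prod_ne_zero_iff.2 fun i _ => mul_ne_zero (hχ0 _) (hχ0 _)
  have hDv : V.v D = ∑ i, (V.nu χ (p i) + V.v (χ (Multiplicative.ofAdd (b1 (Sum.inr i))))) := by
    rw [div_eq_mul_inv, V.mul _ _ hD0 (inv_ne_zero hden), V.inv hden,
      smAdj_prod V _ _ (fun i _ => mul_ne_zero (hχ0 _) (hχ0 _))] at hqv
    have h1 : ∑ i, V.v (χ (Multiplicative.ofAdd (p i)) * χ (Multiplicative.ofAdd (b1 (Sum.inr i)))) =
        ∑ i, (V.nu χ (p i) + V.v (χ (Multiplicative.ofAdd (b1 (Sum.inr i))))) :=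
      Finset.sum_congr rfl fun i _ => V.mul _ _ (hχ0 _) (hχ0 _)
    rw [h1] at hqv
    omega
  obtain ⟨hs0, hsv⟩ := smAdj_sign V hs
  have hP0 : ∏ k, χ (Multiplicative.ofAdd (b1 (Sum.inl k))) ≠ 0 :=
    Finset.prod_ne_zero_iff.2 fun k _ => hχ0 _
  refine ⟨(Σ x : Fin n ⊕ ι, Fin (V.v (χ (Multiplicative.ofAdd (b1 x)))).toNat), inferInstance,
    fun k => (b1.coord k.1).toAddMonoidHom, fun k => χ (Multiplicative.ofAdd (b1 (Sum.inl k))),
    ?_, ?_, ?_, ?_, ?_, ?_⟩
  · intro k h
    have h1 := DFunLike.congr_fun h (b1 k.1)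
    change b1.coord k.1 (b1 k.1) = 0 at h1
    rw [Module.Basis.coord_apply, Module.Basis.repr_self, Finsupp.single_eq_same] at h1
    exact one_ne_zero h1
  · ext m
    rw [AddMonoidHom.finsetSum_apply, hnu]
    exact (hsum fun x => b1.coord x m).symm
  · intro i
    dsimp only
    rw [hhm i, hnu]
    have h1 : ∀ k : (Σ x : Fin n ⊕ ι, Fin (V.v (χ (Multiplicative.ofAdd (b1 x)))).toNat),
        hm (indB (B i)) (b1.coord k.1).toAddMonoidHom = b1.coord k.1 (p i) := by
      intro k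
      refine smAdj_hm (B i) _ (p i) (hp i) fun m hm' => ?_
      have hk : 0 < V.v (χ (Multiplicative.ofAdd (b1 k.1))) := by
        have := k.2.2
        omega
      have h2 := hmin i m hm' k.1 (smAdj_lt V (hχ0 _) hk)
      rw [map_sub] at h2
      change b1.coord k.1 (p i) ≤ b1.coord k.1 m
      omega
    rw [Finset.sum_congr rfl fun k _ => h1 k]
    exact (hsum fun x => b1.coord x (p i)).symm
  · exact fun i => hO _
  · rw [hls]
    exact mul_ne_zero hs0 (mul_ne_zero hP0 hD0)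
  · rw [hls, V.mul _ _ hs0 (mul_ne_zero hP0 hD0), V.mul _ _ hP0 hD0, hsv,
      smAdj_prod V _ _ (fun k _ => hχ0 _), hDv, hcard, Fintype.sum_sum_type,
      Finset.sum_add_distrib]
    simp only [hhm]
    linarith

/-- `O` in the locus of smoothness implies independence at `χ`. -/
theorem SmoothAt.ind {M : Type} [AddCommGroup M] {K : Type} [Field K] [Algebra ℂ K] {ι : Type}
    [Fintype ι] [DecidableEq ι] {n : ℕ} {χ : Multiplicative M →* K} {f : ι → M →₀ ℂ}
    {B : ι → Finset M} {O : ValuationSubring K} (hS : SmoothAt n f B χ O) :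
    LinearIndependent K fun i => dl χ (f i) := by
  obtain ⟨b1, p, -, -, -, hval⟩ := hS
  refine ind_of_det χ f (fun i' => (b1.coord (Sum.inr i')).toAddMonoidHom) fun h => ?_
  rw [h, zero_div, map_zero] at hval
  exact zero_ne_one hval

end T3
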