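import Pool.Agent.Lib.MP_23b606_ag.T1.Main
import Pool.Agent.Lib.MP_23b606_ag.T3.NotNeg
import Pool.Agent.Lib.MP_23b606_ag.T3.Elim2
import Pool.Agent.Lib.MP_23b606_ag.T3.SmAdj
import Pool.Agent.Lib.MP_23b606_ag.T3.Sch

/-! Main: Theorem T3. -/

set_option autoImplicit false

open Polynomial

namespace T3

open T1

theorem main3_aux {K : Type} [Field K] [Algebra ℂ K] {D : Set (ValuationSubring K)} {n : ℕ}
    (hκ : NegOn D n) (N : ℕ) : ∀ (M : Type) [AddCommGroup M] [Module.Free ℤ M]
    [Module.Finite ℤ M] (ι : Type) [Fintype ι] (f g : ι → M →₀ ℂ), Module.finrank ℤ M ≤ N →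
    ∀ (χ : Multiplicative M →* K), GoodK D f g χ n → Pt f χ n → Uniruled K := by
  induction N with
  | zero =>
    intro M _ _ _ ι _ f g hN χ hG hχ
    classical
    have hne : ∀ i, f i ≠ 0 := ne_zero_of_ind χ hG.ind
    have hne' : ∀ i, g i ≠ 0 := by
      intro i h
      have h1 := hG.sub i
      rw [h, Finsupp.support_zero, Finset.subset_empty, Finsupp.support_eq_empty] at h1
      exact hne i h1
    rcases dichotomy g hne' with ⟨m, m0, hm1, hFI⟩ | ⟨J, _, nn, lam, _, hC⟩
    · exact absurd hκ (not_negOn χ hG hχ m hm1 m0 hFI)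
    · have h := (finrank_M0 hC).1
      have h' := (finrank_M0 hC).2
      omega
  | succ N ih =>
    intro M _ _ _ ι _ f g hN χ hG hχ
    classical
    have hne : ∀ i, f i ≠ 0 := ne_zero_of_ind χ hG.ind
    have hne' : ∀ i, g i ≠ 0 := by
      intro i h
      have h1 := hG.sub i
      rw [h, Finsupp.support_zero, Finset.subset_empty, Finsupp.support_eq_empty] at h1
      exact hne i h1
    rcases dichotomy g hne' with ⟨m, m0, hm1, hFI⟩ | ⟨J, _, nn, lam, _, hCg⟩
    · exact absurd hκ (not_negOn χ hG hχ m hm1 m0 hFI)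
    · have hC : Circ f nn lam := circ_mono hne hG.sub hCg
      let χ' : Multiplicative M →* AlgebraicClosure K :=
        ((algebraMap K (AlgebraicClosure K)) : K →* AlgebraicClosure K).comp χ
      have hχ' : ∀ m, χ' m = algebraMap K (AlgebraicClosure K) (χ m) := fun m => rfl
      have hz : ∀ i, ev χ' (f i) = 0 := by
        intro i
        have h := hχ.zero i
        have h2 : ev χ' (f i) = algebraMap K (AlgebraicClosure K) (ev χ (f i)) := by
          simp only [ev, Finsupp.sum, map_sum, map_mul, hχ']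
          refine Finset.sum_congr rfl fun m _ => ?_
          rw [← IsScalarTower.algebraMap_apply]
        rw [h2, h, map_zero]
      have : CharZero (AlgebraicClosure K) := by
        have h : Function.Injective (algebraMap ℂ (AlgebraicClosure K)) :=
          (algebraMap ℂ (AlgebraicClosure K)).injective
        exact (RingHom.charZero_iff h).1 inferInstance
      by_cases h12 : (sysOf χ' hC hz).OnlyTriv 1 ∧ (sysOf χ' hC hz).OnlyTriv 2
      · obtain ⟨hcount, huniq⟩ := (sysOf χ' hC hz).thmC h12.1 h12.2 (idx_le hC)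
        have hsum : ∑ j, lam j ≤ 1 + ∑ i, dd (f i) nn lam := (sysOf χ' hC hz).sum_le h12.1
        have hdd := dd_eq_dd hne hG.sub hCg hsum
        have hgen := adjoin_eq_top χ hχ.gen hχ.zero hC χ' hχ' huniq
        obtain ⟨M0, _, _, _, ι0, _, f0, g0, χ0, hG0, hχ0, hlt⟩ :=
          elim3 χ hG hχ hC hdd hcount hgen
        exact ih M0 ι0 f0 g0 (by omega) χ0 hG0 hχ0
      · rw [not_and_or] at h12
        rcases h12 with h12 | h12
        · unfold WSys.OnlyTriv at h12
          push Not at h12
          obtain ⟨P, hP, hnt⟩ := h12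
          exact uniruled_of_sol χ hG.ind hχ hC χ' hχ' hz 1 P hP hnt
        · unfold WSys.OnlyTriv at h12
          push Not at h12
          obtain ⟨P, hP, hnt⟩ := h12
          exact uniruled_of_sol χ hG.ind hχ hC χ' hχ' hz 2 P hP hnt

/-- **Theorem T3**, internal form. -/
theorem main3 {K : Type} [Field K] [Algebra ℂ K] {D : Set (ValuationSubring K)} {n : ℕ}
    (hκ : NegOn D n) {M : Type} [AddCommGroup M] [Module.Free ℤ M]
    [Module.Finite ℤ M] {ι : Type} [Fintype ι] {f g : ι → M →₀ ℂ}
    (χ : Multiplicative M →* K) (hG : GoodK D f g χ n) (hχ : Pt f χ n) : Uniruled K :=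
  main3_aux hκ _ M ι f g le_rfl χ hG hχ

/-- **Theorem T3**: complete intersections of arbitrary members of the linear systems `B i` which
are smooth in codimension one. -/
theorem main3_smooth {M : Type} [AddCommGroup M] [Module.Free ℤ M] [Module.Finite ℤ M]
    {K : Type} [Field K] [Algebra ℂ K] {ι : Type} [Fintype ι] [DecidableEq ι]
    {f : ι → M →₀ ℂ} {B : ι → Finset M} (hB : ∀ i, (f i).support ⊆ B i)
    (χ : Multiplicative M →* K) {n : ℕ} (hχ : Pt f χ n) {D : Set (ValuationSubring K)}
    (hD : ∀ O ∈ D, IsDiv n O ∧ SmoothAt n f B χ O) (hκ : KodairaNegOn D n) : Uniruled K := by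
  classical
  by_cases hne : D.Nonempty
  · obtain ⟨O1, hO1⟩ := hne
    have hI : LinearIndependent K fun i => dl χ (f i) := (hD O1 hO1).2.ind
    refine main3 (g := fun i => indB (B i)) hκ.negOn χ ⟨hI, ?_, fun O hO => (hD O hO).1, ?_⟩ hχ
    · intro i
      rw [indB_support]
      exact hB i
    · intro d b e l hl O hO V
      exact (hD O hO).2.adj b χ f B e l hl V
  · exfalso
    rw [Set.not_nonempty_iff_eq_empty] at hne
    obtain ⟨x, E, hE⟩ := exists_jac hχ.trd
    have h1 := hκ x 1 1 ⟨E, hE⟩ le_rfl (fun O hO => by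
      rw [hne] at hO
      exact absurd hO (Set.notMem_empty O))
    exact one_ne_zero h1

end T3
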